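import Pool.Agent.NearOrd.MinRank

/-!
# A place which is not ordinary but nearly ordinary

The main theorem.
-/

set_option autoImplicit false

namespace Pool.Agent.NearOrd

open Module Polynomial SmallRank FQ
open Pool.Agent.CoprimeSig (ratM)

section

variable {V : Type*} [AddCommGroup V] [Module ℂ V] [FiniteDimensional ℂ V] {x : End ℂ V}
  {S : Finset ℝ}

theorem rk_pr_add (h : Diag x S) (s : ℝ) :
    rk (pr x S s) + rk (x - (s : ℂ) • 1) = finrank ℂ V := by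
  have h1 : LinearMap.range (pr x S s) = LinearMap.ker (x - (s : ℂ) • 1) := by
    ext w
    constructor
    · rintro ⟨u, rfl⟩
      rw [LinearMap.mem_ker, LinearMap.sub_apply, ← Module.End.mul_apply, mul_pr h, sub_eq_zero]
      rfl
    · intro hw
      rw [LinearMap.mem_ker, LinearMap.sub_apply, sub_eq_zero] at hw
      exact ⟨w, pr_apply h hw⟩
  unfold rk
  rw [h1, add_comm]
  exact LinearMap.finrank_range_add_finrank_ker _

theorem rk_mid (h : Diag x S) : rk (mid x S) + rk (pr x S 1) + rk (pr x S (-1)) =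
    finrank ℂ V := by
  have h1 := rk_add_idem (mid_idem h) (pr_idem h 1) (mid_pr_one h) (pr_mid_one h)
  have h2 : (mid x S + pr x S 1) * (mid x S + pr x S 1) = mid x S + pr x S 1 := by
    rw [add_mul, mul_add, mul_add, mid_idem h, pr_idem h, mid_pr_one h, pr_mid_one h, add_zero,
      zero_add]
  have h3 := rk_add_idem h2 (pr_idem h (-1))
    (by rw [add_mul, mid_pr_neg h, pr_pr h one_ne_neg, add_zero])
    (by rw [mul_add, pr_mid_neg h, pr_pr h one_ne_neg.symm, add_zero])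
  have h4 : mid x S + pr x S 1 + pr x S (-1) = 1 := by rw [mid]; abel
  rw [h4, rk_one] at h3
  omega

end

variable {ι : Type} [Fintype ι] [DecidableEq ι] {F : Matrix ι ι ℚ} {h : Submodule ℚ (Matrix ι ι ℚ)}
  {e : Matrix ι ι ℂ}

theorem rank_Φ (N : Matrix ι ι ℂ) : rk (Φ N) = N.rank := by
  rw [Φ_eq, rk, Matrix.rank_eq_finrank_range_toLin N (Pi.basisFun ℂ ι) (Pi.basisFun ℂ ι)]
  rfl

/-- **Elements of small rank in the simple case.** -/
theorem exists_small_of_idl [Nonempty ι] (D : LieData F h) (he : IsCochar h e)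
    (hidl : idl (cx h) e = cx h) {x : Matrix ι ι ℂ} (hx : x ∈ cx h) (hxe : x * e = e * x)
    {S : Finset ℝ} (hd : Diag (Φ x) S) (hS : ∀ s ∈ S, -1 ≤ s ∧ s ≤ 1)
    (h0 : mid (Φ x) S ≠ 0) (h1 : mid (Φ x) S ≠ 1) :
    ∃ N ∈ cx h, N ≠ 0 ∧ N.rank ≤ rk (mid (Φ x) S) := by
  set g : Submodule ℂ (End ℂ (ι → ℂ)) := (cx h).map (Φ (ι := ι)).toLinearMap with hg
  have hCx := cxLie D
  have hmem : ∀ A : Matrix ι ι ℂ, Φ A ∈ g ↔ A ∈ cx h := by
    intro A
    constructor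
    · rintro ⟨B, hB, hBA⟩
      rw [← (Φ (ι := ι)).injective hBA]
      exact hB
    · intro hA
      exact ⟨A, hA, rfl⟩
  have hlie : ∀ x ∈ g, ∀ y ∈ g, x * y - y * x ∈ g := by
    rintro _ ⟨A, hA, rfl⟩ _ ⟨B, hB, rfl⟩
    refine ⟨A * B - B * A, hCx.lie A hA B hB, ?_⟩
    show Φ (A * B - B * A) = Φ A * Φ B - Φ B * Φ A
    rw [map_sub, map_mul, map_mul]
  have htr : ∀ x ∈ g, LinearMap.trace ℂ (ι → ℂ) x = 0 := by
    rintro _ ⟨A, hA, rfl⟩
    exact trace_Φ D hA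
  have hirr : ∀ W : Submodule ℂ (ι → ℂ), (∀ x ∈ g, ∀ w ∈ W, x w ∈ W) → W = ⊥ ∨ W = ⊤ := by
    intro W hW
    refine hCx.irr W fun A hA w hw => ?_
    rw [← Φ_apply]
    exact hW (Φ A) ((hmem A).2 hA) w hw
  have hee : Φ e * Φ e = Φ e := by rw [← map_mul, he.idem]
  have h2e : (2 : ℂ) • Φ e - 1 ∈ g := by
    have h3 : (2 : ℂ) • Φ e - 1 = Φ ((2 : ℂ) • e - 1) := by
      rw [map_sub, map_smul, map_one]
    rw [h3, hmem]
    exact he.mem
  have hsimple : ∀ s : Submodule ℂ (End ℂ (ι → ℂ)), s ≤ g →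
      (∀ x ∈ g, ∀ y ∈ s, x * y - y * x ∈ s) → (2 : ℂ) • Φ e - 1 ∈ s → s = g := by
    intro s hs1 hs2 hs3
    refine le_antisymm hs1 ?_
    rintro _ ⟨B, hB, rfl⟩
    have h4 : idl (cx h) e ≤ s.comap (Φ (ι := ι)).toLinearMap := by
      refine idl_le ?_ ?_
      · rw [Submodule.mem_comap]
        show Φ ((2 : ℂ) • e - 1) ∈ s
        rw [map_sub, map_smul, map_one]
        exact hs3
      · intro x hx y hy
        rw [Submodule.mem_comap] at hy ⊢
        show Φ (x * y - y * x) ∈ s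
        rw [map_sub, map_mul, map_mul]
        exact hs2 _ ((hmem x).2 hx) _ hy
    rw [hidl] at h4
    exact h4 hB
  obtain ⟨G, -, htr0⟩ := gr_of_idl hlie htr hirr hee h2e hsimple
  obtain ⟨y, hy, hy0, hytr, hyr⟩ := exists_small G (x := Φ x)
    (Submodule.mem_sup_left ((hmem x).2 hx)) (by rw [← map_mul, ← map_mul, hxe]) hd hS h0 h1
  obtain ⟨N, hN, rfl⟩ := htr0 y hy hytr
  refine ⟨N, hN, fun h2 => hy0 (by rw [h2, map_zero]), ?_⟩
  rw [← rank_Φ]
  exact hyr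

/-- Diagonalisable matrices. -/
theorem diag_Φ {x : Matrix ι ι ℂ} {S : Finset ℝ} (hd : aeval x (∏ s ∈ S, (X - C (s : ℂ))) = 0) :
    Diag (Φ x) S := by
  show aeval (Φ x) (∏ s ∈ S, (X - C (s : ℂ))) = 0
  have h1 : aeval (Φ x) (∏ s ∈ S, (X - C (s : ℂ))) = Φ (aeval x (∏ s ∈ S, (X - C (s : ℂ)))) :=
    aeval_algHom_apply (Φ (ι := ι)).toAlgHom x _
  rw [h1, hd, map_zero]

theorem rk_pr_of_rank {x : Matrix ι ι ℂ} {S : Finset ℝ} (hd : Diag (Φ x) S) {f : ℕ}
    (hf : (x + 1).rank + f = Fintype.card ι) : rk (pr (Φ x) S (-1)) = f := by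
  have h1 := rk_pr_add hd (-1)
  have h2 : Φ x - ((-1 : ℝ) : ℂ) • 1 = Φ (x + 1) := by
    have h3 : ((-1 : ℝ) : ℂ) = -1 := by push_cast; rfl
    rw [map_add, map_one, h3]
    module
  rw [h2, rank_Φ, finrank_fintype_fun_eq_card] at h1
  omega

theorem idl_of_ncard [Nonempty ι] (D : LieData F h) (he : IsCochar h e)
    (hone : (orb h e).ncard = 1) : idl (cx h) e = cx h := by
  obtain ⟨J, hJ⟩ := Set.ncard_eq_one.1 hone
  have h1 := mem_orb D he he
  have h2 := orb_sup D he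
  rw [hJ, Set.mem_singleton_iff] at h1
  rw [hJ, sSup_singleton] at h2
  rw [h1, h2]

/-- `cx h` is simple if a top eigenvalue has a multiplicity which is large and not divisible by
the powers. -/
theorem idl_of_slopes [Nonempty ι] (D : LieData F h) (he : IsCochar h e) {x : Matrix ι ι ℂ}
    (hx : x ∈ cx h) {S : Finset ℝ} (hd : Diag (Φ x) S) (hS : ∀ s ∈ S, -1 ≤ s ∧ s ≤ 1) {f : ℕ}
    (hf : (x + 1).rank + f = Fintype.card ι) (hlt : Fintype.card ι < 4 * f)
    (hdiv : ∀ m k : ℕ, Odd k → 3 ≤ k → Fintype.card ι = m ^ k → ¬ m ^ (k - 1) ∣ f) :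
    idl (cx h) e = cx h := by
  have hneg := rk_pr_neg (form_nondeg D.nondeg) hd (skew_Φ D hx) 1
  rw [rk_pr_of_rank hd hf] at hneg
  have hx0 : x ≠ 0 := by
    intro h0
    rw [h0, zero_add, Matrix.rank_one] at hf
    omega
  obtain ⟨m, hm, hodd, hdvd⟩ := exists_dvd D he hx hx0 hd (fun s hs => (hS s hs).2)
    (by rw [← hneg]; exact hlt)
  rw [← hneg] at hdvd
  refine idl_of_ncard D he ?_
  obtain ⟨k, hk⟩ := hodd
  by_contra h1
  exact hdiv m _ ⟨k, hk⟩ (by omega) hm hdvd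

/-- `cx h` is simple if it contains a nonzero element of small rank. -/
theorem idl_of_rank [Nonempty ι] (D : LieData F h) (he : IsCochar h e) {N : Matrix ι ι ℂ}
    (hN : N ∈ cx h) (hN0 : N ≠ 0)
    (hpow : ∀ m k : ℕ, Odd k → 3 ≤ k → Fintype.card ι = m ^ k → N.rank < m ^ (k - 1)) :
    idl (cx h) e = cx h := by
  obtain ⟨m, hm, hodd, hle⟩ := exists_le_rank D he hN hN0
  refine idl_of_ncard D he ?_
  obtain ⟨k, hk⟩ := hodd
  by_contra h1
  exact absurd (hpow m _ ⟨k, hk⟩ (by omega) hm) (not_lt.2 hle)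

/-- Elements of small rank from a diagonalisable element. -/
theorem small_of_slopes [Nonempty ι] (D : LieData F h) (he : IsCochar h e)
    (hidl : idl (cx h) e = cx h) {x : Matrix ι ι ℂ} (hx : x ∈ cx h) (hxe : x * e = e * x)
    {S : Finset ℝ} (hd : Diag (Φ x) S) (hS : ∀ s ∈ S, -1 ≤ s ∧ s ≤ 1) {f : ℕ}
    (hf : (x + 1).rank + f = Fintype.card ι) (hlt : 2 * f < Fintype.card ι)
    (h3 : 3 * Fintype.card ι < 8 * f) : ∃ N ∈ cx h, N ≠ 0 ∧ 4 * N.rank < Fintype.card ι := by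
  have hneg := rk_pr_neg (form_nondeg D.nondeg) hd (skew_Φ D hx) 1
  have hf1 := rk_pr_of_rank hd hf
  rw [hf1] at hneg
  have h2 := rk_mid hd
  rw [← hneg, hf1, finrank_fintype_fun_eq_card] at h2
  obtain ⟨N, hN, hN0, hNr⟩ := exists_small_of_idl D he hidl hx hxe hd hS
    (fun h0 => by
      rw [rk_eq_zero.2 h0] at h2
      omega)
    (fun h0 => by
      rw [h0, rk_one, finrank_fintype_fun_eq_card] at h2
      omega)
  exact ⟨N, hN, hN0, by omega⟩

end Pool.Agent.NearOrd
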