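import Pool.Agent.NearOrd.Orbit

/-!
# The minimal rank of the nonzero elements

If `n = m ^ k`, where `k` is the number of the simple ideals of `cx h`, then every nonzero element
of `cx h` has rank at least `m ^ (k - 1)`.
-/

set_option autoImplicit false

namespace Pool.Agent.NearOrd

open Module Polynomial SmallRank FQ

/-- A matrix which is not scalar. -/
theorem exists_sandwich {m : ℕ} {u : Matrix (Fin m) (Fin m) ℂ} (hu : ∀ c : ℂ, u ≠ c • 1) :
    ∃ b p : Matrix (Fin m) (Fin m) ℂ, p * b = 0 ∧ p * u * b = p ∧ p * p = p ∧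
      p.trace = 1 := by
  classical
  obtain ⟨ξ, hξ⟩ : ∃ ξ : Fin m → ℂ, LinearIndependent ℂ ![ξ, u.mulVec ξ] := by
    by_contra hcon
    push Not at hcon
    have h1 : ∀ ξ, ¬ LinearIndependent ℂ ![ξ, Matrix.toLin' u ξ] := hcon
    obtain ⟨c, hc⟩ := LinearMap.exists_eq_smul_id_of_forall_notLinearIndependent h1
    refine hu c (Matrix.toLin'.injective ?_)
    rw [hc, map_smul, Matrix.toLin'_one]
    rfl
  have h1 : u.mulVec ξ ∉ Submodule.span ℂ {ξ} := by
    intro h2
    obtain ⟨c, hc⟩ := Submodule.mem_span_singleton.1 h2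
    rw [LinearIndependent.pair_iff] at hξ
    have h3 := hξ c (-1) (by rw [hc, neg_smul, one_smul, add_neg_cancel])
    exact one_ne_zero (neg_eq_zero.1 h3.2)
  obtain ⟨f, hf, hfξ⟩ := Submodule.exists_dual_map_eq_bot_of_notMem h1 inferInstance
  have hfξ' : f ξ = 0 := by
    have h2 : f ξ ∈ (Submodule.span ℂ {ξ}).map f :=
      ⟨ξ, Submodule.mem_span_singleton_self _, rfl⟩
    rw [hfξ] at h2
    exact h2
  set η : Fin m → ℂ := fun i => f (Pi.single i 1) / f (u.mulVec ξ) with hη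
  have hηf : ∀ w, η ⬝ᵥ w = f w / f (u.mulVec ξ) := by
    intro w
    have h2 : w = ∑ i, w i • (Pi.single i 1 : Fin m → ℂ) := by
      funext j
      simp [Finset.sum_apply, Pi.single_apply]
    conv_rhs => rw [h2, map_sum]
    rw [Finset.sum_div, dotProduct]
    refine Finset.sum_congr rfl fun i _ => ?_
    rw [map_smul, smul_eq_mul, hη]
    ring
  have h2 : η ⬝ᵥ ξ = 0 := by rw [hηf, hfξ', zero_div]
  have h3 : η ⬝ᵥ u.mulVec ξ = 1 := by rw [hηf, div_self hf]
  refine ⟨Matrix.vecMulVec ξ η, Matrix.vecMulVec (u.mulVec ξ) η, ?_, ?_, ?_, ?_⟩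
  · rw [Matrix.vecMulVec_mul_vecMulVec, h2]
    simp
  · rw [mul_assoc, Matrix.mul_vecMulVec, Matrix.vecMulVec_mul_vecMulVec, h3]
    simp
  · rw [Matrix.vecMulVec_mul_vecMulVec, h3]
    simp
  · rw [Matrix.trace_vecMulVec, dotProduct_comm, h3]

variable {ι : Type} [Fintype ι] [DecidableEq ι] {F : Matrix ι ι ℚ} {h : Submodule ℚ (Matrix ι ι ℚ)}
  {e : Matrix ι ι ℂ}

/-- A nonzero element of `cx h` has a nonzero component in one of the simple ideals. -/
theorem exists_comp [Nonempty ι] (D : LieData F h) (he : IsCochar h e) {x : Matrix ι ι ℂ}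
    (hx : x ∈ cx h) (hx0 : x ≠ 0) : ∃ I ∈ orb h e, ∃ u ∈ I, ∃ v ∈ others h e I,
      u + v = x ∧ u ≠ 0 := by
  by_contra hcon
  push Not at hcon
  refine hx0 (scalar_comm D hx ?_)
  let T : Submodule ℂ (Matrix ι ι ℂ) :=
    { carrier := {y | x * y = y * x}
      add_mem' := fun {a b} ha hb => by
        show x * (a + b) = (a + b) * x
        rw [mul_add, add_mul, show x * a = a * x from ha, show x * b = b * x from hb]
      zero_mem' := by
        show x * 0 = 0 * x
        rw [mul_zero, zero_mul]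
      smul_mem' := fun c a ha => by
        show x * (c • a) = (c • a) * x
        rw [mul_smul_comm, smul_mul_assoc, show x * a = a * x from ha] }
  have h1 : sSup (orb h e) ≤ T := by
    refine sSup_le fun I hI y hy => ?_
    have h2 : x ∈ I ⊔ others h e I := by
      rw [sup_others D he hI]
      exact hx
    obtain ⟨u, hu, v, hv, huv⟩ := Submodule.mem_sup.1 h2
    have h3 := hcon I hI u hu v hv huv
    rw [h3, zero_add] at huv
    show x * y = y * x
    rw [← huv]
    exact (others_comm D he hI y hy v hv).symm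
  rw [orb_sup D he] at h1
  exact fun y hy => h1 hy

/-- **The minimal rank.** -/
theorem exists_le_rank [Nonempty ι] (D : LieData F h) (he : IsCochar h e) {x : Matrix ι ι ℂ}
    (hx : x ∈ cx h) (hx0 : x ≠ 0) : ∃ m : ℕ, Fintype.card ι = m ^ (orb h e).ncard ∧
      Odd (orb h e).ncard ∧ m ^ ((orb h e).ncard - 1) ≤ x.rank := by
  obtain ⟨m, hm, hodd, hiso⟩ := exists_pow_alg D he
  refine ⟨m, hm, hodd, ?_⟩
  obtain ⟨I, hI, u, hu, v, hv, huv, hu0⟩ := exists_comp D he hx hx0
  obtain ⟨φ⟩ := hiso I hI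
  have hIcx : I ≤ cx h := by
    rw [← orb_sup D he]
    exact le_sSup hI
  have hcomm := alg_comm (s := (I : Set (Matrix ι ι ℂ)))
    (t := (others h e I : Set (Matrix ι ι ℂ))) (others_comm D he hI)
  set u' : alg I := ⟨u, Algebra.subset_adjoin hu⟩ with hu'
  have hns : ∀ c : ℂ, φ u' ≠ c • 1 := by
    intro c hc
    have h1 : u' = c • 1 := φ.injective (by rw [hc, map_smul, map_one])
    have h2 : u = c • (1 : Matrix ι ι ℂ) := congrArg Subtype.val h1
    have h3 := (cxLie D).tr u (hIcx hu)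
    rw [h2, Matrix.trace_smul, Matrix.trace_one, smul_eq_mul] at h3
    rcases mul_eq_zero.1 h3 with h4 | h4
    · rw [h4, zero_smul] at h2
      exact hu0 h2
    · rw [Nat.cast_eq_zero] at h4
      exact Fintype.card_pos.ne' h4
  obtain ⟨b₀, p₀, h1, h2, h3, h4⟩ := exists_sandwich hns
  obtain ⟨b, rfl⟩ := φ.surjective b₀
  obtain ⟨p, rfl⟩ := φ.surjective p₀
  have e1 : (p : Matrix ι ι ℂ) * b = 0 := by
    have h5 : p * b = 0 := φ.injective (by rw [map_mul, h1, map_zero])
    exact congrArg Subtype.val h5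
  have e2 : (p : Matrix ι ι ℂ) * u * b = p := by
    have h5 : p * u' * b = p := φ.injective (by rw [map_mul, map_mul, h2])
    exact congrArg Subtype.val h5
  have e3 : (p : Matrix ι ι ℂ) * p = p := by
    have h5 : p * p = p := φ.injective (by rw [map_mul, h3])
    exact congrArg Subtype.val h5
  have e4 : (p : Matrix ι ι ℂ) * x * b = p := by
    rw [← huv, mul_add, add_mul, e2, mul_assoc _ v, ← hcomm b b.2 v (Algebra.subset_adjoin hv),
      ← mul_assoc, e1, zero_mul, add_zero]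
  have hle : (p : Matrix ι ι ℂ).rank ≤ x.rank := by
    rw [← e4]
    exact (Matrix.rank_mul_le_left _ _).trans (Matrix.rank_mul_le_right _ _)
  refine le_trans (le_of_eq ?_) hle
  -- the rank of `p`
  set ψ := ((alg I).equivMapOfInjective (Φ (ι := ι)).toAlgHom (Φ (ι := ι)).injective).symm.trans φ
    with hψ
  have hp : Φ (p : Matrix ι ι ℂ) ∈ (alg I).map (Φ (ι := ι)).toAlgHom := ⟨p, p.2, rfl⟩
  have h5 := tr_one ψ (b := 1) (fun c _ => by rw [mul_one, one_mul]) ⟨Φ (p : Matrix ι ι ℂ), hp⟩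
  have h6 : ψ ⟨Φ (p : Matrix ι ι ℂ), hp⟩ = φ p := by
    rw [hψ, AlgEquiv.trans_apply]
    congr 1
    rw [AlgEquiv.symm_apply_eq]
    rfl
  rw [h6, h4, one_mul, mul_one, LinearMap.trace_one] at h5
  have h7 : Φ (p : Matrix ι ι ℂ) * Φ (p : Matrix ι ι ℂ) = Φ (p : Matrix ι ι ℂ) := by
    rw [← map_mul, e3]
  simp only at h5
  rw [trace_idem h7] at h5
  have h8 : m * rk (Φ (p : Matrix ι ι ℂ)) = finrank ℂ (ι → ℂ) := by exact_mod_cast h5
  rw [finrank_fintype_fun_eq_card, hm] at h8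
  have hrk : rk (Φ (p : Matrix ι ι ℂ)) = (p : Matrix ι ι ℂ).rank := by
    rw [Φ_eq, rk, Matrix.rank_eq_finrank_range_toLin _ (Pi.basisFun ℂ ι) (Pi.basisFun ℂ ι)]
    rfl
  rw [hrk] at h8
  obtain ⟨k, hk⟩ := hodd
  have hm0 : 0 < m := by
    rcases Nat.eq_zero_or_pos m with h0 | h0
    · rw [h0, zero_pow (by omega)] at hm
      exact absurd hm Fintype.card_pos.ne'
    · exact h0
  have h9 : (orb h e).ncard = (orb h e).ncard - 1 + 1 := by omega
  rw [h9, pow_succ] at h8
  exact (Nat.eq_of_mul_eq_mul_left hm0 (by rw [h8]; ring)).symm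

end Pool.Agent.NearOrd
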