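import Pool.Agent.NearOrd.Main

/-!
# Elements of square zero and odd rank
-/

set_option autoImplicit false
set_option linter.unusedSectionVars false

namespace Pool.Agent.NearOrd

open Module Polynomial SmallRank FQ
open Pool.Agent.OddRank (mm irred skew_mem)
open Pool.Agent.CoprimeSig (ratM)

section

variable {V : Type*} [AddCommGroup V] [Module ℂ V] [FiniteDimensional ℂ V]
  {g : Submodule ℂ (End ℂ V)} {e : End ℂ V}

/-- An element of square zero and odd rank: the symplectic case. -/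
theorem mm_mem_odd (G : Gr g e) {ψ : V →ₗ[ℂ] V →ₗ[ℂ] ℂ} (halt : ∀ x, ψ x x = 0)
    (hnd : ∀ x, (∀ y, ψ x y = 0) → x = 0)
    (hgsp : ∀ x ∈ g, ∃ κ : ℂ, ∀ u v, ψ (x u) v + ψ u (x v) = κ * ψ u v)
    (hmult : ∀ u v, ψ (e u) v + ψ u (e v) = ψ u v)
    {c : End ℂ V} (hc : c ∈ g) (hcc : c * c = 0) (h : Odd (rk c)) (u v : V) :
    mm ψ u v ∈ g := by
  set X : Set (End ℂ V) := {a | a ∈ g ∧ a * a = a ∧ ∀ u v, ψ (a u) v + ψ u (a v) = ψ u v} with hX
  have hG : ∀ a ∈ X, a ∈ g := fun a ha => ha.1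
  have hGe : ∀ a ∈ X, a * a = a := fun a ha => ha.2.1
  have hGψ : ∀ a ∈ X, ∀ u v, ψ (a u) v + ψ u (a v) = ψ u v := fun a ha => ha.2.2
  have he : e ∈ X := ⟨G.mem, G.idem, hmult⟩
  have hxm : ∀ x ∈ up g e, e + x ∈ X := by
    intro x hx
    refine ⟨g.add_mem G.mem hx.1, ?_, fun u v => ?_⟩
    · rw [mul_add, add_mul, add_mul, G.idem, hx.2.1, hx.2.2, Gr.up_mul_up hx hx, add_zero,
        add_zero]
    · have h1 := hmult u v
      have h2 := up_skew G hgsp hx u v
      simp only [LinearMap.add_apply, map_add]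
      linear_combination h1 + h2
  have hym : ∀ y ∈ dn g e, e + y ∈ X := by
    intro y hy
    refine ⟨g.add_mem G.mem hy.1, ?_, fun u v => ?_⟩
    · rw [mul_add, add_mul, add_mul, G.idem, hy.2.1, hy.2.2, Gr.dn_mul_dn hy hy, add_zero,
        add_zero]
    · have h1 := hmult u v
      have h2 := dn_skew G hgsp hy u v
      simp only [LinearMap.add_apply, map_add]
      linear_combination h1 + h2
  have hirr : ∀ W : Submodule ℂ V, (∀ a ∈ X, ∀ w ∈ W, a w ∈ W) → W = ⊥ ∨ W = ⊤ := by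
    intro W hW
    refine G.irr_ud (fun x hx w hw => ?_) fun y hy w hw => ?_
    · have h1 : x w = (e + x) w - e w := by simp
      rw [h1]
      exact W.sub_mem (hW _ (hxm x hx) w hw) (hW _ he w hw)
    · have h1 : y w = (e + y) w - e w := by simp
      rw [h1]
      exact W.sub_mem (hW _ (hym y hy) w hw) (hW _ he w hw)
  exact irred halt hnd G.lie hgsp hG hGe hGψ hirr hc hcc h u v

end

variable {ι : Type} [Fintype ι] [DecidableEq ι] {F : Matrix ι ι ℚ} {h : Submodule ℚ (Matrix ι ι ℚ)}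
  {e : Matrix ι ι ℂ}

/-- The simple case with an element of square zero and odd rank. -/
theorem full_of_odd [Nonempty ι] (D : LieData F h) (he : IsCochar h e)
    (hidl : idl (cx h) e = cx h) {N : Matrix ι ι ℂ} (hN : N ∈ cx h) (hNN : N * N = 0)
    (hodd : Odd N.rank) (A : Matrix ι ι ℚ) : A ∈ h ↔ A.transpose * F + F * A = 0 := by
  refine ⟨D.skew A, fun hA => ?_⟩
  rw [← ratM_mem_cx]
  set g : Submodule ℂ (End ℂ (ι → ℂ)) := (cx h).map (Φ (ι := ι)).toLinearMap with hg
  have hCx := cxLie D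
  have hmem : ∀ A : Matrix ι ι ℂ, Φ A ∈ g ↔ A ∈ cx h := by
    intro A
    constructor
    · rintro ⟨B, hB, hBA⟩
      rw [← (Φ (ι := ι)).injective hBA]
      exact hB
    · intro hA
      exact ⟨A, hA, rfl⟩
  have hlie : ∀ x ∈ g, ∀ y ∈ g, x * y - y * x ∈ g := by
    rintro _ ⟨A, hA, rfl⟩ _ ⟨B, hB, rfl⟩
    refine ⟨A * B - B * A, hCx.lie A hA B hB, ?_⟩
    show Φ (A * B - B * A) = Φ A * Φ B - Φ B * Φ A
    rw [map_sub, map_mul, map_mul]
  have htr : ∀ x ∈ g, LinearMap.trace ℂ (ι → ℂ) x = 0 := by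
    rintro _ ⟨A, hA, rfl⟩
    exact trace_Φ D hA
  have hirr : ∀ W : Submodule ℂ (ι → ℂ), (∀ x ∈ g, ∀ w ∈ W, x w ∈ W) → W = ⊥ ∨ W = ⊤ := by
    intro W hW
    refine hCx.irr W fun A hA w hw => ?_
    rw [← Φ_apply]
    exact hW (Φ A) ((hmem A).2 hA) w hw
  have hee : Φ e * Φ e = Φ e := by rw [← map_mul, he.idem]
  have h2e : (2 : ℂ) • Φ e - 1 ∈ g := by
    have h3 : (2 : ℂ) • Φ e - 1 = Φ ((2 : ℂ) • e - 1) := by
      rw [map_sub, map_smul, map_one]
    rw [h3, hmem]
    exact he.mem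
  have hsimple : ∀ s : Submodule ℂ (End ℂ (ι → ℂ)), s ≤ g →
      (∀ x ∈ g, ∀ y ∈ s, x * y - y * x ∈ s) → (2 : ℂ) • Φ e - 1 ∈ s → s = g := by
    intro s hs1 hs2 hs3
    refine le_antisymm hs1 ?_
    rintro _ ⟨B, hB, rfl⟩
    have h4 : idl (cx h) e ≤ s.comap (Φ (ι := ι)).toLinearMap := by
      refine idl_le ?_ ?_
      · rw [Submodule.mem_comap]
        show Φ ((2 : ℂ) • e - 1) ∈ s
        rw [map_sub, map_smul, map_one]
        exact hs3
      · intro x hx y hy
        rw [Submodule.mem_comap] at hy ⊢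
        show Φ (x * y - y * x) ∈ s
        rw [map_sub, map_mul, map_mul]
        exact hs2 _ ((hmem x).2 hx) _ hy
    rw [hidl] at h4
    exact h4 hB
  obtain ⟨G, -, htr0⟩ := gr_of_idl hlie htr hirr hee h2e hsimple
  have hskew : ∀ x ∈ g, ∀ u v, form F (x u) v + form F u (x v) = 0 := by
    rintro _ ⟨A, hA, rfl⟩ u v
    exact skew_Φ D hA u v
  have hgsp : ∀ x ∈ g ⊔ Submodule.span ℂ {1}, ∃ κ : ℂ, ∀ u v,
      form F (x u) v + form F u (x v) = κ * form F u v := by
    intro x hx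
    obtain ⟨a, ha, b, hb, rfl⟩ := Submodule.mem_sup.1 hx
    obtain ⟨c, rfl⟩ := Submodule.mem_span_singleton.1 hb
    refine ⟨2 * c, fun u v => ?_⟩
    have h1 := hskew a ha u v
    simp only [LinearMap.add_apply, LinearMap.smul_apply, Module.End.one_apply, map_add,
      map_smul, smul_eq_mul]
    linear_combination h1
  have hmult : ∀ u v, form F (Φ e u) v + form F u (Φ e v) = form F u v := by
    intro u v
    rw [Φ_eq, form_toLin, he.mult D, form_apply]
  have hD : ∀ u v, form F (Φ (ratM A) u) v + form F u (Φ (ratM A) v) = 0 := by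
    intro u v
    have h1 : (ratM A).transpose * ratM F + ratM F * ratM A = 0 := by
      have e1 : ∀ A B : Matrix ι ι ℚ, ratM (A * B) = ratM A * ratM B := by
        intro A B
        change (A * B).map (Rat.castHom ℂ) = A.map (Rat.castHom ℂ) * B.map (Rat.castHom ℂ)
        exact Matrix.map_mul
      have e2 : ∀ A B : Matrix ι ι ℚ, ratM (A + B) = ratM A + ratM B := by
        intro A B
        change (A + B).map (Rat.castHom ℂ) = A.map (Rat.castHom ℂ) + B.map (Rat.castHom ℂ)
        exact Matrix.map_add _ (map_add _) _ _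
      have e3 : ratM (0 : Matrix ι ι ℚ) = 0 := by
        change (0 : Matrix ι ι ℚ).map (Rat.castHom ℂ) = 0
        exact Matrix.map_zero _ (map_zero _)
      have h2 : (ratM A).transpose = ratM A.transpose := rfl
      rw [h2, ← e1, ← e1, ← e2, hA, e3]
    rw [Φ_eq, form_toLin, h1, Matrix.zero_mulVec, dotProduct_zero]
  have h5 : Φ (ratM A) ∈ g ⊔ Submodule.span ℂ {1} := by
    refine skew_mem (form_alt D.alt) (form_nondeg D.nondeg) ?_ hD
    exact mm_mem_odd G (form_alt D.alt) (form_nondeg D.nondeg) hgsp hmult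
      (Submodule.mem_sup_left ((hmem N).2 hN)) (by rw [← map_mul, hNN, map_zero])
      (by rw [rank_Φ]; exact hodd)
  rw [← hmem]
  refine htr0 _ h5 ?_
  -- the trace of a skew operator is zero
  obtain ⟨a, ha, b, hb, hab⟩ := Submodule.mem_sup.1 h5
  obtain ⟨c, rfl⟩ := Submodule.mem_span_singleton.1 hb
  have hc : c = 0 := by
    have : Nontrivial (ι → ℂ) := inferInstance
    obtain ⟨u, hu⟩ := exists_ne (0 : ι → ℂ)
    have h6 : ∃ v, form F u v ≠ 0 := by
      by_contra hn
      push Not at hn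
      exact hu (form_nondeg D.nondeg u hn)
    obtain ⟨v, hv⟩ := h6
    have h7 := hD u v
    have h8 := hskew a ha u v
    rw [← hab] at h7
    simp only [LinearMap.add_apply, LinearMap.smul_apply, Module.End.one_apply, map_add,
      map_smul, smul_eq_mul] at h7
    have h9 : 2 * c * form F u v = 0 := by linear_combination h7 - h8
    rcases mul_eq_zero.1 h9 with h10 | h10
    · rcases mul_eq_zero.1 h10 with h11 | h11
      · exact absurd h11 two_ne_zero
      · exact h11
    · exact absurd h10 hv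
  rw [hc, zero_smul, add_zero] at hab
  rw [← hab]
  exact htr a ha

end Pool.Agent.NearOrd
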