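import Pool.Agent.NearOrd.Spec
import Pool.Agent.FQ.Burnside

/-!
# Traces of products of elements of commuting subalgebras
-/

set_option autoImplicit false

namespace Pool.Agent.NearOrd

open Module SmallRank

/-- A trace functional on matrices is a multiple of the trace. -/
theorem tr_matrix {m : ℕ} (τ : Matrix (Fin m) (Fin m) ℂ →ₗ[ℂ] ℂ) (h : ∀ a b, τ (a * b) = τ (b * a))
    (a : Matrix (Fin m) (Fin m) ℂ) : (m : ℂ) * τ a = a.trace * τ 1 := by
  classical
  have h1 : ∀ i j, i ≠ j → τ (Matrix.single i j 1) = 0 := by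
    intro i j hij
    have h2 := h (Matrix.single i i (1 : ℂ)) (Matrix.single i j 1)
    rw [Matrix.single_mul_single_same, Matrix.single_mul_single_of_ne _ _ _ _ (Ne.symm hij),
      map_zero, one_mul] at h2
    exact h2
  have h2 : ∀ i j, τ (Matrix.single i i 1) = τ (Matrix.single j j 1) := by
    intro i j
    have h3 := h (Matrix.single i j (1 : ℂ)) (Matrix.single j i 1)
    rw [Matrix.single_mul_single_same, Matrix.single_mul_single_same, one_mul] at h3
    exact h3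
  have h3 : ∀ c : Matrix (Fin m) (Fin m) ℂ, τ c = ∑ i, c i i * τ (Matrix.single i i 1) := by
    intro c
    conv_lhs => rw [Matrix.matrix_eq_sum_single c]
    rw [map_sum]
    refine Finset.sum_congr rfl fun i _ => ?_
    rw [map_sum, Finset.sum_eq_single i]
    · have h4 : Matrix.single i i (c i i) = c i i • Matrix.single i i (1 : ℂ) := by
        rw [Matrix.smul_single, smul_eq_mul, mul_one]
      rw [h4, map_smul, smul_eq_mul]
    · intro j _ hj
      have h4 : Matrix.single i j (c i j) = c i j • Matrix.single i j (1 : ℂ) := by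
        rw [Matrix.smul_single, smul_eq_mul, mul_one]
      rw [h4, map_smul, h1 i j (Ne.symm hj), smul_zero]
    · intro h4
      exact absurd (Finset.mem_univ i) h4
  rcases Nat.eq_zero_or_pos m with h0 | h0
  · subst h0
    rw [h3 1, Nat.cast_zero, zero_mul, Finset.univ_eq_empty, Finset.sum_empty, mul_zero]
  · have h4 : ∀ i : Fin m, τ (Matrix.single i i 1) = τ (Matrix.single ⟨0, h0⟩ ⟨0, h0⟩ 1) :=
      fun i => h2 i _
    rw [h3 a, h3 1]
    simp only [h4, Matrix.one_apply_eq, one_mul, Finset.sum_const, Finset.card_univ,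
      Fintype.card_fin, nsmul_eq_mul]
    rw [← Finset.sum_mul, Matrix.trace]
    simp only [Matrix.diag_apply]
    ring

variable {V : Type*} [AddCommGroup V] [Module ℂ V] [FiniteDimensional ℂ V]

theorem tr_one {A : Subalgebra ℂ (End ℂ V)} {m : ℕ} (φ : A ≃ₐ[ℂ] Matrix (Fin m) (Fin m) ℂ)
    {b : End ℂ V} (hb : ∀ a ∈ A, a * b = b * a) (a : A) :
    (m : ℂ) * LinearMap.trace ℂ V ((a : End ℂ V) * b) = (φ a).trace * LinearMap.trace ℂ V b := by
  let τ : Matrix (Fin m) (Fin m) ℂ →ₗ[ℂ] ℂ :=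
    (LinearMap.trace ℂ V) ∘ₗ (LinearMap.mulRight ℂ b) ∘ₗ A.val.toLinearMap ∘ₗ
      φ.symm.toLinearMap
  have hτ : ∀ c, τ c = LinearMap.trace ℂ V ((φ.symm c : A) * b) := fun c => rfl
  have h1 := tr_matrix τ (by
    intro c d
    have e1 : φ.symm (c * d) = φ.symm c * φ.symm d := map_mul _ _ _
    have e2 : φ.symm (d * c) = φ.symm d * φ.symm c := map_mul _ _ _
    rw [hτ, hτ, e1, e2, Subalgebra.coe_mul, Subalgebra.coe_mul, mul_assoc,
      hb _ (φ.symm d).2, ← mul_assoc, LinearMap.trace_mul_comm, mul_assoc]) (φ a)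
  rw [hτ, hτ, map_one, AlgEquiv.symm_apply_apply] at h1
  simpa using h1

/-- Traces of products. -/
theorem tr_mul [Nontrivial V] {A B : Subalgebra ℂ (End ℂ V)} {m : ℕ}
    (φ : A ≃ₐ[ℂ] Matrix (Fin m) (Fin m) ℂ)
    (hAB : ∀ a ∈ A, ∀ b ∈ B, a * b = b * a) {a b : End ℂ V} (ha : a ∈ A) (hb : b ∈ B) :
    (finrank ℂ V : ℂ) * LinearMap.trace ℂ V (a * b) =
      LinearMap.trace ℂ V a * LinearMap.trace ℂ V b := by
  have h1 := tr_one φ (fun c hc => hAB c hc b hb) ⟨a, ha⟩
  have h2 := tr_one φ (b := 1) (fun c _ => by rw [mul_one, one_mul]) ⟨a, ha⟩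
  rw [LinearMap.trace_one, mul_one] at h2
  have hm : (m : ℂ) ≠ 0 := by
    intro h0
    rw [Nat.cast_eq_zero] at h0
    subst h0
    have h3 : (1 : A) = 0 := φ.injective (Subsingleton.elim _ _)
    have h4 : (1 : End ℂ V) = 0 := congrArg (fun z : A => (z : End ℂ V)) h3
    exact one_ne_zero h4
  apply mul_left_cancel₀ hm
  simp only at h1 h2
  linear_combination (finrank ℂ V : ℂ) * h1 - (LinearMap.trace ℂ V b) * h2

/-- Ranks of idempotents. -/
theorem rk_idem_dvd {A : Subalgebra ℂ (End ℂ V)} {m : ℕ}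
    (φ : A ≃ₐ[ℂ] Matrix (Fin m) (Fin m) ℂ) {P : End ℂ V} (hP : P ∈ A) (hPP : P * P = P) :
    ∃ r : ℕ, m * rk P = r * finrank ℂ V := by
  have h2 := tr_one φ (b := 1) (fun c _ => by rw [mul_one, one_mul]) ⟨P, hP⟩
  rw [LinearMap.trace_one, mul_one] at h2
  have h3 : (φ ⟨P, hP⟩) * (φ ⟨P, hP⟩) = φ ⟨P, hP⟩ := by
    rw [← map_mul]
    congr 1
    exact Subtype.ext hPP
  have h4 : Matrix.toLin' (φ ⟨P, hP⟩) * Matrix.toLin' (φ ⟨P, hP⟩) =
      Matrix.toLin' (φ ⟨P, hP⟩) := by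
    have h5 := Matrix.toLin'_mul (φ ⟨P, hP⟩) (φ ⟨P, hP⟩)
    rw [h3] at h5
    exact h5.symm
  have h5 := trace_idem h4
  rw [Matrix.trace_toLin'_eq] at h5
  have h6 := trace_idem hPP
  refine ⟨rk (Matrix.toLin' (φ ⟨P, hP⟩)), ?_⟩
  simp only at h2
  rw [h5, h6] at h2
  exact_mod_cast h2

end Pool.Agent.NearOrd
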