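import Pool.Agent.NearOrd.SmallEl
import Pool.Agent.NearOrd.TrMul

/-!
# The sum of two commuting operators

`A`, `B` are commuting algebras of operators without common stable subspaces, `u ∈ A`, `v ∈ B` are
nonzero and skew for a nondegenerate form, `u + v` is diagonalisable with real eigenvalues between
`-1` and `1`. Then four times the dimension of the eigenspace for the eigenvalue one is at most the
dimension of the space.
-/

set_option autoImplicit false
set_option linter.unusedSectionVars false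

namespace Pool.Agent.NearOrd

open Module Polynomial SmallRank

variable {V : Type*} [AddCommGroup V] [Module ℂ V]

theorem diag_sub_aux (x : End ℂ V) (S : Finset ℝ) (α : ℂ) :
    aeval x (∏ s ∈ S, (X - C ((s : ℂ) - α))) = aeval (x + α • 1) (∏ s ∈ S, (X - C (s : ℂ))) := by
  have h1 : (∏ s ∈ S, (X - C ((s : ℂ) - α))) = (∏ s ∈ S, (X - C (s : ℂ))).comp (X + C α) := by
    rw [Polynomial.prod_comp]
    refine Finset.prod_congr rfl fun s _ => ?_
    rw [sub_comp, X_comp, C_comp, C_sub]
    ring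
  rw [h1, aeval_comp, map_add, aeval_X, aeval_C, Algebra.algebraMap_eq_smul_one]

theorem aeval_mem' {A : Subalgebra ℂ (End ℂ V)} {a : End ℂ V} (ha : a ∈ A) (p : ℂ[X]) :
    aeval a p ∈ A := by
  have h1 : Algebra.adjoin ℂ {a} ≤ A := Algebra.adjoin_le (Set.singleton_subset_iff.2 ha)
  exact h1 (aeval_mem_adjoin_singleton ℂ a)

theorem aeval_eigen {u v : End ℂ V} (huv : u * v = v * u) {α : ℂ} (p : ℂ[X]) :
    ∀ w, u w = α • w → aeval (u + v) p w = aeval (v + α • 1) p w := by
  induction p using Polynomial.induction_on with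
  | C a => intro w _; simp
  | add p q hp hq => intro w hw; rw [map_add, map_add, LinearMap.add_apply, LinearMap.add_apply,
      hp w hw, hq w hw]
  | monomial n a ih =>
    intro w hw
    have h1 : (u + v) w = (v + α • 1) w := by
      rw [LinearMap.add_apply, LinearMap.add_apply, hw, LinearMap.smul_apply, add_comm]
      rfl
    have h2 : u ((v + α • 1) w) = α • (v + α • 1) w := by
      have h3 : u (v w) = v (u w) := by
        rw [← Module.End.mul_apply, huv]
        rfl
      rw [LinearMap.add_apply, map_add, h3, hw, LinearMap.smul_apply, Module.End.one_apply,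
        map_smul, map_smul, hw, smul_add]
    rw [pow_succ, ← mul_assoc, map_mul (aeval (u + v)) (C a * X ^ n) X,
      map_mul (aeval (v + α • 1)) (C a * X ^ n) X, Module.End.mul_apply, Module.End.mul_apply,
      aeval_X, aeval_X, h1, ih _ h2]

variable {A B : Subalgebra ℂ (End ℂ V)}

/-- If `u + v` is diagonalisable and `α` is an eigenvalue of `u` then `v + α` is diagonalisable. -/
theorem diag_right (hAB : ∀ a ∈ A, ∀ b ∈ B, a * b = b * a)
    (hirr : ∀ W : Submodule ℂ V, (∀ a ∈ A, ∀ w ∈ W, a w ∈ W) → (∀ b ∈ B, ∀ w ∈ W, b w ∈ W) →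
      W = ⊥ ∨ W = ⊤) {u v : End ℂ V} (hu : u ∈ A) (hv : v ∈ B) {S : Finset ℝ}
    (h : Diag (u + v) S) {α : ℂ} {w₀ : V} (hw₀ : u w₀ = α • w₀) (hne : w₀ ≠ 0) :
    Diag (v + α • 1) S := by
  have hvB : v + α • 1 ∈ B := B.add_mem hv (B.smul_mem B.one_mem α)
  have hqB := aeval_mem' hvB (∏ s ∈ S, (X - C (s : ℂ)))
  have hqw : ∀ w, u w = α • w → aeval (v + α • 1) (∏ s ∈ S, (X - C (s : ℂ))) w = 0 := by
    intro w hw
    rw [← aeval_eigen (hAB u hu v hv) _ w hw, show aeval (u + v) (∏ s ∈ S, (X - C (s : ℂ))) = 0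
      from h]
    rfl
  show aeval (v + α • 1) (∏ s ∈ S, (X - C (s : ℂ))) = 0
  generalize aeval (v + α • 1) (∏ s ∈ S, (X - C (s : ℂ))) = q at hqB hqw
  let W : Submodule ℂ V :=
    { carrier := {w | ∀ b ∈ B, q (b w) = 0}
      add_mem' := fun {a b} ha hb c hc => by rw [map_add, map_add, ha c hc, hb c hc, add_zero]
      zero_mem' := fun c _ => by rw [map_zero, map_zero]
      smul_mem' := fun r a ha c hc => by rw [map_smul, map_smul, ha c hc, smul_zero] }
  rcases hirr W (fun a ha w hw b hb => by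
      have h1 : b (a w) = a (b w) := by
        rw [← Module.End.mul_apply, ← hAB a ha b hb]
        rfl
      have h2 : q (a (b w)) = a (q (b w)) := by
        rw [← Module.End.mul_apply, ← hAB a ha q hqB]
        rfl
      rw [h1, h2, hw b hb, map_zero])
    (fun b hb w hw c hc => hw (c * b) (B.mul_mem hc hb)) with h1 | h1
  · exfalso
    have h2 : w₀ ∈ W := by
      intro b hb
      refine hqw _ ?_
      rw [← Module.End.mul_apply, hAB u hu b hb, Module.End.mul_apply, hw₀, map_smul]
    rw [h1, Submodule.mem_bot] at h2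
    exact hne h2
  · refine LinearMap.ext fun w => ?_
    have h2 : w ∈ W := by rw [h1]; exact Submodule.mem_top
    exact h2 1 B.one_mem

variable [FiniteDimensional ℂ V] [Nontrivial V]

/-- A diagonalisable operator is the sum of its eigenvalues times the projections. -/
theorem eq_sum {x : End ℂ V} {S : Finset ℝ} (h : Diag x S) : x = ∑ s ∈ S, (s : ℂ) • pr x S s := by
  have h1 : x * ∑ s ∈ S, pr x S s = x := by rw [pr_sum h, mul_one]
  rw [Finset.mul_sum] at h1
  rw [← Finset.sum_congr rfl fun s _ => mul_pr h s]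
  exact h1.symm

/-- If `u + v` is diagonalisable with real eigenvalues then so is `v`. -/
theorem exists_diag (hAB : ∀ a ∈ A, ∀ b ∈ B, a * b = b * a)
    (hirr : ∀ W : Submodule ℂ V, (∀ a ∈ A, ∀ w ∈ W, a w ∈ W) → (∀ b ∈ B, ∀ w ∈ W, b w ∈ W) →
      W = ⊥ ∨ W = ⊤) {u v : End ℂ V} (hu : u ∈ A) (hv : v ∈ B) {S : Finset ℝ}
    (h : Diag (u + v) S) (htr : LinearMap.trace ℂ V v = 0) : ∃ S' : Finset ℝ, Diag v S' := by
  classical
  obtain ⟨α, hα⟩ := Module.End.exists_eigenvalue u
  obtain ⟨w₀, hw₀⟩ := hα.exists_hasEigenvector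
  have h1 := diag_right hAB hirr hu hv h hw₀.apply_eq_smul hw₀.2
  have hn : (finrank ℂ V : ℂ) ≠ 0 := by
    rw [Nat.cast_ne_zero]
    exact finrank_pos.ne'
  have h2 : α * finrank ℂ V = ((∑ s ∈ S, s * rk (pr (v + α • 1) S s) : ℝ) : ℂ) := by
    have h3 := congrArg (LinearMap.trace ℂ V) (eq_sum h1)
    rw [map_add, htr, zero_add, map_smul, LinearMap.trace_one, smul_eq_mul, map_sum] at h3
    rw [h3, Complex.ofReal_sum]
    refine Finset.sum_congr rfl fun s _ => ?_
    rw [map_smul, trace_idem (pr_idem h1 s), smul_eq_mul, Complex.ofReal_mul, Complex.ofReal_natCast]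
  obtain ⟨r, hr⟩ : ∃ r : ℝ, α = (r : ℂ) := by
    refine ⟨(∑ s ∈ S, s * rk (pr (v + α • 1) S s)) / finrank ℂ V, ?_⟩
    rw [Complex.ofReal_div, ← h2, Complex.ofReal_natCast, mul_div_assoc, div_self hn, mul_one]
  refine ⟨S.image fun s => s - r, ?_⟩
  rw [Diag, Finset.prod_image fun a _ b _ hab => sub_left_injective hab]
  have h3 := diag_sub_aux v S α
  rw [show aeval (v + α • 1) (∏ s ∈ S, (X - C (s : ℂ))) = 0 from h1, hr] at h3
  rw [← h3]
  congr 1
  refine Finset.prod_congr rfl fun s _ => ?_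
  rw [Complex.ofReal_sub]

/-- The adjoint of a projection. -/
theorem pr_adj {ψ : V →ₗ[ℂ] V →ₗ[ℂ] ℂ} {u : End ℂ V} {S : Finset ℝ} (h : Diag u S)
    (hskew : ∀ a b, ψ (u a) b + ψ a (u b) = 0) (s : ℝ) (a b : V) :
    ψ (pr u S s a) b = ψ (pr u S s a) (pr u S (-s) b) := by
  classical
  have hadj0 : ∀ s t : ℝ, s + t ≠ 0 → ∀ a b, ψ (pr u S s a) (pr u S t b) = 0 := by
    intro s t hst a b
    have h1 := hskew (pr u S s a) (pr u S t b)
    rw [← Module.End.mul_apply u, ← Module.End.mul_apply u, mul_pr h, mul_pr h] at h1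
    simp only [LinearMap.smul_apply, map_smul, smul_eq_mul] at h1
    rw [← add_mul] at h1
    rcases mul_eq_zero.1 h1 with h2 | h2
    · exact absurd (by exact_mod_cast h2) hst
    · exact h2
  have h1 : b = ∑ t ∈ S, pr u S t b := by
    have h2 : (∑ t ∈ S, pr u S t) b = b := by rw [pr_sum h]; rfl
    rw [LinearMap.sum_apply] at h2
    exact h2.symm
  by_cases hs : -s ∈ S
  · conv_lhs => rw [h1, map_sum]
    refine Finset.sum_eq_single (-s) (fun t _ ht => hadj0 s t (fun h2 => ht (by linarith)) a b)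
      (fun h2 => absurd hs h2)
  · rw [pr_of_not_mem hs, LinearMap.zero_apply, map_zero]
    conv_lhs => rw [h1, map_sum]
    refine Finset.sum_eq_zero fun t ht => hadj0 s t (fun h2 => hs ?_) a b
    have h3 : -s = t := by linarith
    rw [h3]
    exact ht

theorem rk_pr_le {ψ : V →ₗ[ℂ] V →ₗ[ℂ] ℂ} (hnd : ∀ x, (∀ y, ψ x y = 0) → x = 0) {u : End ℂ V}
    {S : Finset ℝ} (h : Diag u S) (hskew : ∀ a b, ψ (u a) b + ψ a (u b) = 0) (s : ℝ) :
    rk (pr u S s) ≤ rk (pr u S (-s)) := by
  let f : LinearMap.range (pr u S s) →ₗ[ℂ] Dual ℂ (LinearMap.range (pr u S (-s))) :=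
    { toFun := fun w => (ψ w.1).comp (LinearMap.range (pr u S (-s))).subtype
      map_add' := fun w w' => by
        ext z
        simp
      map_smul' := fun c w => by
        ext z
        simp }
  have hf : Function.Injective f := by
    rw [injective_iff_map_eq_zero]
    rintro ⟨_, a, rfl⟩ hw
    have h1 : pr u S s a = 0 := by
      refine hnd _ fun b => ?_
      rw [pr_adj h hskew]
      exact congrArg (fun g : Dual ℂ (LinearMap.range (pr u S (-s))) =>
        g ⟨pr u S (-s) b, ⟨b, rfl⟩⟩) hw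
    exact Subtype.ext h1
  have h1 := LinearMap.finrank_le_finrank_of_injective hf
  rw [Subspace.dual_finrank_eq] at h1
  exact h1

theorem rk_pr_neg {ψ : V →ₗ[ℂ] V →ₗ[ℂ] ℂ} (hnd : ∀ x, (∀ y, ψ x y = 0) → x = 0) {u : End ℂ V}
    {S : Finset ℝ} (h : Diag u S) (hskew : ∀ a b, ψ (u a) b + ψ a (u b) = 0) (s : ℝ) :
    rk (pr u S (-s)) = rk (pr u S s) := by
  refine le_antisymm ?_ (rk_pr_le hnd h hskew s)
  have h1 := rk_pr_le hnd h hskew (-s)
  rwa [neg_neg] at h1

/-- The largest eigenvalue of a skew diagonalisable operator. -/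
theorem exists_max {ψ : V →ₗ[ℂ] V →ₗ[ℂ] ℂ} (hnd : ∀ x, (∀ y, ψ x y = 0) → x = 0)
    {u : End ℂ V} {S : Finset ℝ} (h : Diag u S)
    (hu : u ≠ 0) (hskew : ∀ a b, ψ (u a) b + ψ a (u b) = 0) :
    ∃ a : ℝ, pr u S a ≠ 0 ∧ (∀ s, pr u S s ≠ 0 → s ≤ a) ∧
      2 * rk (pr u S a) ≤ finrank ℂ V := by
  classical
  have hneg : ∀ s, pr u S s ≠ 0 → pr u S (-s) ≠ 0 := by
    intro s hs h0
    refine hs (LinearMap.ext fun a => hnd _ fun b => ?_)
    rw [pr_adj h hskew, h0, LinearMap.zero_apply, map_zero]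
  have hne : (S.filter fun s => pr u S s ≠ 0).Nonempty := by
    by_contra hcon
    rw [Finset.not_nonempty_iff_eq_empty, Finset.filter_eq_empty_iff] at hcon
    refine hu ?_
    rw [eq_sum h]
    refine Finset.sum_eq_zero fun s hs => ?_
    have h1 : pr u S s = 0 := by
      by_contra h2
      exact hcon hs h2
    rw [h1, smul_zero]
  set a := (S.filter fun s => pr u S s ≠ 0).max' hne with ha
  have h1 := Finset.max'_mem _ hne
  rw [Finset.mem_filter, ← ha] at h1
  have hmax : ∀ s, pr u S s ≠ 0 → s ≤ a := by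
    intro s hs
    have h2 : s ∈ S := by
      by_contra h2
      exact hs (pr_of_not_mem h2)
    exact Finset.le_max' (S.filter fun s => pr u S s ≠ 0) s (Finset.mem_filter.2 ⟨h2, hs⟩)
  have ha0 : a ≠ 0 := by
    intro h0
    refine hu ?_
    rw [eq_sum h]
    refine Finset.sum_eq_zero fun s _ => ?_
    by_cases hs : pr u S s = 0
    · rw [hs, smul_zero]
    · have h2 := hmax s hs
      have h3 := hmax _ (hneg s hs)
      have h4 : s = 0 := by linarith
      rw [h4, Complex.ofReal_zero, zero_smul]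
  refine ⟨a, h1.2, hmax, ?_⟩
  have h2 : a ≠ -a := fun h3 => ha0 (by linarith)
  have h3 := rk_add_idem (pr_idem h a) (pr_idem h (-a)) (pr_pr h h2) (pr_pr h h2.symm)
  have h4 : rk (pr u S a + pr u S (-a)) ≤ finrank ℂ V := Submodule.finrank_le _
  have h5 := rk_pr_neg hnd h hskew a
  omega

/-- **The sum of two commuting operators.** -/
theorem four_mul_le (hAB : ∀ a ∈ A, ∀ b ∈ B, a * b = b * a)
    (hirr : ∀ W : Submodule ℂ V, (∀ a ∈ A, ∀ w ∈ W, a w ∈ W) → (∀ b ∈ B, ∀ w ∈ W, b w ∈ W) →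
      W = ⊥ ∨ W = ⊤) {ψ : V →ₗ[ℂ] V →ₗ[ℂ] ℂ} (hnd : ∀ x, (∀ y, ψ x y = 0) → x = 0)
    {u v : End ℂ V} (hu : u ∈ A) (hv : v ∈ B) (hu0 : u ≠ 0) (hv0 : v ≠ 0)
    (hskewu : ∀ a b, ψ (u a) b + ψ a (u b) = 0) (hskewv : ∀ a b, ψ (v a) b + ψ a (v b) = 0)
    (htru : LinearMap.trace ℂ V u = 0) (htrv : LinearMap.trace ℂ V v = 0)
    {S : Finset ℝ} (h : Diag (u + v) S) (hS : ∀ s ∈ S, s ≤ 1) :
    4 * rk (pr (u + v) S 1) ≤ finrank ℂ V := by
  obtain ⟨Sv, hv'⟩ := exists_diag hAB hirr hu hv h htrv
  obtain ⟨Su, hu'⟩ := exists_diag (A := B) (B := A) (fun a ha b hb => (hAB b hb a ha).symm)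
    (fun W h1 h2 => hirr W h2 h1) hv hu (S := S) (by rwa [add_comm]) htru
  obtain ⟨a, ha, hamax, hra⟩ := exists_max hnd hu' hu0 hskewu
  obtain ⟨b, hb, hbmax, hrb⟩ := exists_max hnd hv' hv0 hskewv
  set P := pr u Su a with hP
  set Q := pr v Sv b with hQ
  have hPA : P ∈ A := by
    rw [hP, pr]
    split_ifs
    · exact aeval_mem' hu _
    · exact A.zero_mem
  have hQB : Q ∈ B := by
    rw [hQ, pr]
    split_ifs
    · exact aeval_mem' hv _
    · exact B.zero_mem
  have hPP : P * P = P := pr_idem hu' a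
  have hQQ : Q * Q = Q := pr_idem hv' b
  have hPQ : P * Q = Q * P := hAB P hPA Q hQB
  have hPQi : P * Q * (P * Q) = P * Q := by
    rw [mul_assoc, ← mul_assoc Q, ← hPQ, mul_assoc, hQQ, ← mul_assoc, hPP]
  obtain ⟨m, ⟨φ⟩⟩ := FQ.exists_matrix A B hAB hirr
  have htr := tr_mul φ hAB hPA hQB
  rw [trace_idem hPQi, trace_idem hPP, trace_idem hQQ] at htr
  have hnat : finrank ℂ V * rk (P * Q) = rk P * rk Q := by exact_mod_cast htr
  have hpos : 0 < rk (P * Q) := by
    have h1 := rk_pos ha
    have h2 := rk_pos hb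
    rcases Nat.eq_zero_or_pos (rk (P * Q)) with h3 | h3
    · rw [h3, mul_zero] at hnat
      have h4 := Nat.mul_pos h1 h2
      omega
    · exact h3
  -- the sum of the largest eigenvalues is an eigenvalue
  have hab : a + b ≤ 1 := by
    have h1 : P * Q ≠ 0 := fun h0 => by
      rw [rk_eq_zero.2 h0] at hpos
      exact lt_irrefl 0 hpos
    obtain ⟨w, hw⟩ : ∃ w, (P * Q) w ≠ 0 := by
      by_contra hcon
      push Not at hcon
      exact h1 (LinearMap.ext hcon)
    have h2 : (u + v) ((P * Q) w) = ((a + b : ℝ) : ℂ) • (P * Q) w := by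
      have h3 : (u + v) * (P * Q) = ((a + b : ℝ) : ℂ) • (P * Q) := by
        rw [add_mul, ← mul_assoc, mul_pr hu', hPQ, ← mul_assoc v, mul_pr hv', smul_mul_assoc,
          smul_mul_assoc, ← hQ, ← hP, ← hPQ, ← add_smul, Complex.ofReal_add]
      have h4 := congrArg (fun f : End ℂ V => f w) h3
      exact h4
    have h3 := pr_apply h h2
    refine hS _ ?_
    by_contra h4
    rw [pr_of_not_mem h4, LinearMap.zero_apply] at h3
    exact hw h3.symm
  -- the eigenspace for the eigenvalue one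
  have huv : u * v = v * u := hAB u hu v hv
  have hle : LinearMap.range (pr (u + v) S 1) ≤ LinearMap.range (P * Q) := by
    rintro _ ⟨w', rfl⟩
    set w := pr (u + v) S 1 w' with hw
    have hxw : (u + v) w = w := by
      rw [hw, ← Module.End.mul_apply, mul_pr h, Complex.ofReal_one, one_smul]
    have hPw : P w = w := by
      have h1 : ∑ s ∈ Su, pr u Su s w = w := by
        rw [← LinearMap.sum_apply, pr_sum hu']
        rfl
      have h2 : ∀ s ∈ Su, s ≠ a → pr u Su s w = 0 := by
        intro s _ hs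
        by_contra h3
        have h4 : v (pr u Su s w) = ((1 - s : ℝ) : ℂ) • pr u Su s w := by
          have h5 : (u + v) (pr u Su s w) = pr u Su s w := by
            have h6 : pr u Su s * (u + v) = (u + v) * pr u Su s :=
              pr_comm (by rw [mul_add, add_mul, huv]) s
            rw [← Module.End.mul_apply, ← h6, Module.End.mul_apply, hxw]
          rw [LinearMap.add_apply, ← Module.End.mul_apply u, mul_pr hu', LinearMap.smul_apply] at h5
          rw [Complex.ofReal_sub, sub_smul, Complex.ofReal_one, one_smul]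
          exact (eq_sub_of_add_eq' h5)
        have h5 := pr_apply hv' h4
        have h6 : pr v Sv (1 - s) ≠ 0 := by
          intro h7
          rw [h7, LinearMap.zero_apply] at h5
          exact h3 h5.symm
        have h7 := hbmax _ h6
        have h8 : pr u Su s ≠ 0 := by
          intro h9
          rw [h9, LinearMap.zero_apply] at h3
          exact h3 rfl
        have h9 := hamax _ h8
        exact hs (by linarith)
      by_cases haS : a ∈ Su
      · rw [Finset.sum_eq_single a h2 (fun h3 => absurd haS h3)] at h1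
        exact h1
      · exact absurd (pr_of_not_mem haS) ha
    have hQw : Q w = w := by
      have h1 : v w = ((1 - a : ℝ) : ℂ) • w := by
        have h2 : u w = (a : ℂ) • w := by
          rw [← hPw, ← Module.End.mul_apply, hP, mul_pr hu', ← hP, LinearMap.smul_apply]
        have h3 := hxw
        rw [LinearMap.add_apply, h2] at h3
        rw [Complex.ofReal_sub, sub_smul, Complex.ofReal_one, one_smul]
        exact (eq_sub_of_add_eq' h3)
      by_cases hw0 : w = 0
      · rw [hw0, map_zero]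
      have h2 := pr_apply hv' h1
      have h3 : pr v Sv (1 - a) ≠ 0 := by
        intro h4
        rw [h4, LinearMap.zero_apply] at h2
        exact hw0 h2.symm
      have h4 := hbmax _ h3
      have h5 : 1 - a = b := by linarith
      rw [h5] at h2
      exact h2
    exact ⟨w, by rw [Module.End.mul_apply, hQw, hPw]⟩
  have h1 : rk (pr (u + v) S 1) ≤ rk (P * Q) := Submodule.finrank_mono hle
  have hn : 0 < finrank ℂ V := finrank_pos
  have h2 : 4 * (finrank ℂ V * rk (P * Q)) ≤ finrank ℂ V * finrank ℂ V := by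
    rw [hnat]
    calc 4 * (rk P * rk Q) = (2 * rk P) * (2 * rk Q) := by ring
      _ ≤ finrank ℂ V * finrank ℂ V := Nat.mul_le_mul hra hrb
  have h3 : 4 * rk (P * Q) ≤ finrank ℂ V := by
    have h4 : finrank ℂ V * (4 * rk (P * Q)) ≤ finrank ℂ V * finrank ℂ V := by
      calc finrank ℂ V * (4 * rk (P * Q)) = 4 * (finrank ℂ V * rk (P * Q)) := by ring
        _ ≤ _ := h2
    exact Nat.le_of_mul_le_mul_left h4 hn
  omega

end Pool.Agent.NearOrd
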