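import Pool.Agent.NearOrd.Pow
import Pool.Agent.NearOrd.TwoId
import Pool.Agent.SmallRank.RatMain

/-!
# The number of the simple ideals divides the multiplicity of the top eigenvalue

`x ∈ cx h` is diagonalisable with real eigenvalues at most `1`; `f` is the multiplicity of the
eigenvalue `1`. If `4 f > n` then `n = m ^ k` and `m ^ (k - 1)` divides `f`, where `k` is the
number of the simple ideals of `cx h` (an odd number).
-/

set_option autoImplicit false

namespace Pool.Agent.NearOrd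

open Module Polynomial SmallRank FQ
open Pool.Agent.CoprimeSig (ratM)

variable {ι : Type} [Fintype ι] [DecidableEq ι] {F : Matrix ι ι ℚ} {h : Submodule ℚ (Matrix ι ι ℚ)}
  {e : Matrix ι ι ℂ}

/-- the algebra homomorphism from matrices to operators -/
noncomputable abbrev Φ : Matrix ι ι ℂ ≃ₐ[ℂ] End ℂ (ι → ℂ) := Matrix.toLinAlgEquiv'

theorem Φ_eq (x : Matrix ι ι ℂ) : Φ x = Matrix.toLin' x := rfl

theorem Φ_apply (x : Matrix ι ι ℂ) (w : ι → ℂ) : Φ x w = x.mulVec w :=
  Matrix.toLinAlgEquiv'_apply x w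

theorem skew_Φ (D : LieData F h) {x : Matrix ι ι ℂ} (hx : x ∈ cx h) (a b : ι → ℂ) :
    form F (Φ x a) b + form F a (Φ x b) = 0 := by
  rw [Φ_eq, form_toLin, skew_cx D hx, Matrix.zero_mulVec, dotProduct_zero]

theorem trace_Φ (D : LieData F h) {x : Matrix ι ι ℂ} (hx : x ∈ cx h) :
    LinearMap.trace ℂ (ι → ℂ) (Φ x) = 0 := by
  rw [Φ_eq, Matrix.trace_toLin'_eq, (cxLie D).tr x hx]

/-- The other ideals. -/
def others (h : Submodule ℚ (Matrix ι ι ℚ)) (e : Matrix ι ι ℂ)
    (I : Submodule ℂ (Matrix ι ι ℂ)) : Submodule ℂ (Matrix ι ι ℂ) := sSup (orb h e \ {I})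

theorem others_comm [Nonempty ι] (D : LieData F h) (he : IsCochar h e)
    {I : Submodule ℂ (Matrix ι ι ℂ)} (hI : I ∈ orb h e) :
    ∀ z ∈ I, ∀ y ∈ others h e I, z * y = y * z := by
  intro z hz
  let T : Submodule ℂ (Matrix ι ι ℂ) :=
    { carrier := {y | z * y = y * z}
      add_mem' := fun {a b} ha hb => by
        show z * (a + b) = (a + b) * z
        rw [mul_add, add_mul, show z * a = a * z from ha, show z * b = b * z from hb]
      zero_mem' := by
        show z * 0 = 0 * z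
        rw [mul_zero, zero_mul]
      smul_mem' := fun c a ha => by
        show z * (c • a) = (c • a) * z
        rw [mul_smul_comm, smul_mul_assoc, show z * a = a * z from ha] }
  have h1 : others h e I ≤ T := by
    refine sSup_le fun J hJ y hy => ?_
    rcases orb_eq_or_comm D he hI hJ.1 with h2 | h2
    · exact absurd h2.symm hJ.2
    · exact h2 z hz y hy
  exact fun y hy => h1 hy

theorem sup_others [Nonempty ι] (D : LieData F h) (he : IsCochar h e)
    {I : Submodule ℂ (Matrix ι ι ℂ)} (hI : I ∈ orb h e) : I ⊔ others h e I = cx h := by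
  rw [← orb_sup D he]
  refine le_antisymm (sup_le (le_sSup hI) (sSup_le_sSup Set.sdiff_subset)) (sSup_le fun J hJ => ?_)
  by_cases hJI : J = I
  · rw [hJI]
    exact le_sup_left
  · exact le_sup_of_le_right (le_sSup ⟨hJ, hJI⟩)

theorem scalar_comm [Nonempty ι] (D : LieData F h) {x : Matrix ι ι ℂ} (hx : x ∈ cx h)
    (hc : ∀ y ∈ cx h, x * y = y * x) : x = 0 := by
  have h1 : ∃ c : ℂ, Φ x = c • (1 : End ℂ (ι → ℂ)) := by
    refine PrimePow.schur_irr (g := (cx h).map (Φ (ι := ι)).toLinearMap) ?_ _ ?_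
    · intro U hU
      refine (cxLie D).irr U fun y hy w hw => ?_
      rw [← Φ_apply]
      exact hU _ ⟨y, hy, rfl⟩ w hw
    · rintro _ ⟨y, hy, rfl⟩
      show Φ x * Φ y = Φ y * Φ x
      rw [← map_mul, ← map_mul, hc y hy]
  obtain ⟨c, hc'⟩ := h1
  have h2 := trace_Φ D hx
  rw [hc', map_smul, LinearMap.trace_one, smul_eq_mul] at h2
  rcases mul_eq_zero.1 h2 with h3 | h3
  · rw [h3, zero_smul] at hc'
    exact (Φ (ι := ι)).injective (hc'.trans (map_zero _).symm)
  · rw [Nat.cast_eq_zero] at h3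
    exact absurd h3 (finrank_pos (R := ℂ) (M := ι → ℂ)).ne'

theorem exists_dvd [Nonempty ι] (D : LieData F h) (he : IsCochar h e) {x : Matrix ι ι ℂ}
    (hx : x ∈ cx h) (hx0 : x ≠ 0) {S : Finset ℝ} (hd : Diag (Φ x) S) (hS : ∀ s ∈ S, s ≤ 1)
    (hf : Fintype.card ι < 4 * rk (pr (Φ x) S 1)) :
    ∃ m : ℕ, Fintype.card ι = m ^ (orb h e).ncard ∧ Odd (orb h e).ncard ∧
      m ^ ((orb h e).ncard - 1) ∣ rk (pr (Φ x) S 1) := by
  obtain ⟨m, hm, hodd, hiso⟩ := exists_pow_alg D he
  refine ⟨m, hm, hodd, ?_⟩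
  -- an ideal with a nonzero component
  obtain ⟨I, hI, u, hu, v, hv, huv, hu0⟩ : ∃ I ∈ orb h e, ∃ u ∈ I, ∃ v ∈ others h e I,
      u + v = x ∧ u ≠ 0 := by
    by_contra hcon
    push Not at hcon
    refine hx0 (scalar_comm D hx ?_)
    let T : Submodule ℂ (Matrix ι ι ℂ) :=
      { carrier := {y | x * y = y * x}
        add_mem' := fun {a b} ha hb => by
          show x * (a + b) = (a + b) * x
          rw [mul_add, add_mul, show x * a = a * x from ha, show x * b = b * x from hb]
        zero_mem' := by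
          show x * 0 = 0 * x
          rw [mul_zero, zero_mul]
        smul_mem' := fun c a ha => by
          show x * (c • a) = (c • a) * x
          rw [mul_smul_comm, smul_mul_assoc, show x * a = a * x from ha] }
    have h1 : sSup (orb h e) ≤ T := by
      refine sSup_le fun I hI y hy => ?_
      have h2 : x ∈ I ⊔ others h e I := by
        rw [sup_others D he hI]
        exact hx
      obtain ⟨u, hu, v, hv, huv⟩ := Submodule.mem_sup.1 h2
      have h3 := hcon I hI u hu v hv huv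
      rw [h3, zero_add] at huv
      show x * y = y * x
      rw [← huv]
      exact (others_comm D he hI y hy v hv).symm
    rw [orb_sup D he] at h1
    exact fun y hy => h1 hy
  have hIcx : I ≤ cx h := by
    rw [← orb_sup D he]
    exact le_sSup hI
  have hJcx : others h e I ≤ cx h := by
    rw [← sup_others D he hI]
    exact le_sup_right
  set A := (alg I).map (Φ (ι := ι)).toAlgHom with hA
  set B := (alg (others h e I)).map (Φ (ι := ι)).toAlgHom with hB
  have hAB : ∀ a ∈ A, ∀ b ∈ B, a * b = b * a := by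
    rintro _ ⟨a, ha, rfl⟩ _ ⟨b, hb, rfl⟩
    show Φ a * Φ b = Φ b * Φ a
    rw [← map_mul, ← map_mul, alg_comm (others_comm D he hI) a ha b hb]
  have hirr : ∀ W : Submodule ℂ (ι → ℂ), (∀ a ∈ A, ∀ w ∈ W, a w ∈ W) →
      (∀ b ∈ B, ∀ w ∈ W, b w ∈ W) → W = ⊥ ∨ W = ⊤ := by
    intro W hWA hWB
    refine (cxLie D).irr W fun y hy w hw => ?_
    rw [← sup_others D he hI] at hy
    obtain ⟨a, ha, b, hb, rfl⟩ := Submodule.mem_sup.1 hy
    rw [Matrix.add_mulVec]
    refine W.add_mem ?_ ?_
    · rw [← Φ_apply]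
      exact hWA _ ⟨a, Algebra.subset_adjoin ha, rfl⟩ w hw
    · rw [← Φ_apply]
      exact hWB _ ⟨b, Algebra.subset_adjoin hb, rfl⟩ w hw
  have huA : Φ u ∈ A := ⟨u, Algebra.subset_adjoin hu, rfl⟩
  have hvB : Φ v ∈ B := ⟨v, Algebra.subset_adjoin hv, rfl⟩
  have hv0 : v = 0 := by
    by_contra hv0
    have h1 : Φ x = Φ u + Φ v := by rw [← map_add, huv]
    rw [h1] at hd hf
    have h2 := four_mul_le hAB hirr (form_nondeg D.nondeg) huA hvB
      (fun h0 => hu0 ((Φ (ι := ι)).injective (h0.trans (map_zero _).symm)))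
      (fun h0 => hv0 ((Φ (ι := ι)).injective (h0.trans (map_zero _).symm)))
      (skew_Φ D (hIcx hu)) (skew_Φ D (hJcx hv)) (trace_Φ D (hIcx hu)) (trace_Φ D (hJcx hv)) hd hS
    rw [finrank_fintype_fun_eq_card] at h2
    omega
  rw [hv0, add_zero] at huv
  subst huv
  have hPA : pr (Φ u) S 1 ∈ A := by
    rw [pr]
    split_ifs
    · exact aeval_mem' huA _
    · exact A.zero_mem
  obtain ⟨φ⟩ := hiso I hI
  obtain ⟨r, hr⟩ := rk_idem_dvd
    (((alg I).equivMapOfInjective (Φ (ι := ι)).toAlgHom (Φ (ι := ι)).injective).symm.trans φ) hPA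
    (pr_idem hd 1)
  rw [finrank_fintype_fun_eq_card, hm] at hr
  obtain ⟨k, hk⟩ := hodd
  have hm0 : 0 < m := by
    rcases Nat.eq_zero_or_pos m with h0 | h0
    · rw [h0, zero_pow (by omega)] at hm
      exact absurd hm Fintype.card_pos.ne'
    · exact h0
  have h1 : (orb h e).ncard = (orb h e).ncard - 1 + 1 := by omega
  rw [h1, pow_succ] at hr
  have h2 : m * rk (pr (Φ u) S 1) = m * (r * m ^ ((orb h e).ncard - 1)) := by
    rw [hr]
    ring
  exact ⟨r, by rw [Nat.eq_of_mul_eq_mul_left hm0 h2, mul_comm]⟩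

end Pool.Agent.NearOrd
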