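import Pool.Agent.NearOrd.OddN

/-!
# The multiplicity of the top eigenvalue is a product

`x ∈ cx h` is diagonalisable with real eigenvalues, `f` is the multiplicity of the largest
eigenvalue, `k` the number of the simple ideals of `cx h`, `n = m ^ k`. Then `f` is a product of
`k` numbers each of which is `m` or at most `m / 2`.
-/

set_option autoImplicit false
set_option linter.unusedSectionVars false

namespace Pool.Agent.NearOrd

open Module Polynomial SmallRank FQ

section

variable {V : Type*} [AddCommGroup V] [Module ℂ V] [FiniteDimensional ℂ V] [Nontrivial V]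

/-- `u` is diagonalisable with real eigenvalues, the largest one is `a`, of multiplicity `r`. -/
def IsTop (u : End ℂ V) (a : ℝ) (r : ℕ) : Prop :=
  ∃ S : Finset ℝ, Diag u S ∧ pr u S a ≠ 0 ∧ (∀ s, pr u S s ≠ 0 → s ≤ a) ∧ rk (pr u S a) = r

theorem pr_ne_iff {u : End ℂ V} {S : Finset ℝ} (h : Diag u S) {a : ℝ} :
    pr u S a ≠ 0 ↔ ∃ w, w ≠ 0 ∧ u w = (a : ℂ) • w := by
  constructor
  · intro h1
    obtain ⟨w, hw⟩ : ∃ w, pr u S a w ≠ 0 := by
      by_contra hcon
      push Not at hcon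
      exact h1 (LinearMap.ext hcon)
    refine ⟨pr u S a w, hw, ?_⟩
    rw [← Module.End.mul_apply, mul_pr h]
    rfl
  · rintro ⟨w, hw0, hw⟩ h1
    have h2 := pr_apply h hw
    rw [h1, LinearMap.zero_apply] at h2
    exact hw0 h2.symm

theorem rk_pr_eq {u : End ℂ V} {S S' : Finset ℝ} (h : Diag u S) (h' : Diag u S') (a : ℝ) :
    rk (pr u S a) = rk (pr u S' a) := by
  have h1 : LinearMap.range (pr u S a) = LinearMap.range (pr u S' a) := by
    have key : ∀ {T T' : Finset ℝ}, Diag u T → Diag u T' →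
        LinearMap.range (pr u T a) ≤ LinearMap.range (pr u T' a) := by
      rintro T T' hT hT' _ ⟨w, rfl⟩
      refine ⟨pr u T a w, pr_apply hT' ?_⟩
      rw [← Module.End.mul_apply, mul_pr hT]
      rfl
    exact le_antisymm (key h h') (key h' h)
  unfold rk
  rw [h1]

theorem IsTop.unique {u : End ℂ V} {a a' : ℝ} {r r' : ℕ} (h : IsTop u a r) (h' : IsTop u a' r') :
    r = r' := by
  obtain ⟨S, hS, h1, h2, h3⟩ := h
  obtain ⟨S', hS', h1', h2', h3'⟩ := h'
  have h4 : a = a' := le_antisymm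
    (h2' _ ((pr_ne_iff hS').2 ((pr_ne_iff hS).1 h1)))
    (h2 _ ((pr_ne_iff hS).2 ((pr_ne_iff hS').1 h1')))
  subst h4
  rw [← h3, ← h3', rk_pr_eq hS hS']

theorem exists_isTop {u : End ℂ V} {S : Finset ℝ} (h : Diag u S) : ∃ a r, IsTop u a r := by
  classical
  have hne : (S.filter fun s => pr u S s ≠ 0).Nonempty := by
    by_contra hcon
    rw [Finset.not_nonempty_iff_eq_empty, Finset.filter_eq_empty_iff] at hcon
    have h1 := pr_sum h
    rw [Finset.sum_eq_zero fun s hs => by
      by_contra h2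
      exact hcon hs h2] at h1
    exact zero_ne_one h1
  set a := (S.filter fun s => pr u S s ≠ 0).max' hne with ha
  have h1 := Finset.max'_mem _ hne
  rw [Finset.mem_filter, ← ha] at h1
  refine ⟨a, _, S, h, h1.2, fun s hs => ?_, rfl⟩
  have h2 : s ∈ S := by
    by_contra h2
    exact hs (pr_of_not_mem h2)
  exact Finset.le_max' (S.filter fun s => pr u S s ≠ 0) s (Finset.mem_filter.2 ⟨h2, hs⟩)

theorem isTop_zero : IsTop (0 : End ℂ V) 0 (finrank ℂ V) := by
  have hd : Diag (0 : End ℂ V) {0} := by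
    rw [Diag, Finset.prod_singleton, Complex.ofReal_zero, C_0, sub_zero, aeval_X]
  have h1 : pr (0 : End ℂ V) {0} 0 = 1 := by
    have h2 := pr_sum hd
    rwa [Finset.sum_singleton] at h2
  refine ⟨{0}, hd, by rw [h1]; exact one_ne_zero, fun s hs => ?_, by rw [h1, rk_one]⟩
  by_contra h2
  have h3 : s ∉ ({0} : Finset ℝ) := by
    rw [Finset.mem_singleton]
    intro h4
    exact h2 h4.le
  exact hs (pr_of_not_mem h3)

variable {A B : Subalgebra ℂ (End ℂ V)}

/-- **The top eigenvalue of the sum of two commuting operators.** -/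
theorem IsTop.add (hAB : ∀ a ∈ A, ∀ b ∈ B, a * b = b * a)
    (hirr : ∀ W : Submodule ℂ V, (∀ a ∈ A, ∀ w ∈ W, a w ∈ W) → (∀ b ∈ B, ∀ w ∈ W, b w ∈ W) →
      W = ⊥ ∨ W = ⊤) {u v : End ℂ V} (hu : u ∈ A) (hv : v ∈ B) {a b : ℝ} {r r' : ℕ}
    (hua : IsTop u a r) (hvb : IsTop v b r') :
    ∃ r'' : ℕ, IsTop (u + v) (a + b) r'' ∧ finrank ℂ V * r'' = r * r' := by
  classical
  obtain ⟨Su, hu', ha, hamax, hra⟩ := hua
  obtain ⟨Sv, hv', hb, hbmax, hrb⟩ := hvb
  set P := pr u Su a with hP
  set Q := pr v Sv b with hQ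
  have hPA : P ∈ A := by
    rw [hP, pr]
    split_ifs
    · exact aeval_mem' hu _
    · exact A.zero_mem
  have hQB : Q ∈ B := by
    rw [hQ, pr]
    split_ifs
    · exact aeval_mem' hv _
    · exact B.zero_mem
  have hPP : P * P = P := pr_idem hu' a
  have hQQ : Q * Q = Q := pr_idem hv' b
  have hPQ : P * Q = Q * P := hAB P hPA Q hQB
  have hPQi : P * Q * (P * Q) = P * Q := by
    rw [mul_assoc, ← mul_assoc Q, ← hPQ, mul_assoc, hQQ, ← mul_assoc, hPP]
  obtain ⟨m, ⟨φ⟩⟩ := FQ.exists_matrix A B hAB hirr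
  have htr := tr_mul φ hAB hPA hQB
  rw [trace_idem hPQi, trace_idem hPP, trace_idem hQQ] at htr
  have hnat : finrank ℂ V * rk (P * Q) = rk P * rk Q := by exact_mod_cast htr
  have hpos : 0 < rk (P * Q) := by
    have h1 := rk_pos ha
    have h2 := rk_pos hb
    rcases Nat.eq_zero_or_pos (rk (P * Q)) with h3 | h3
    · rw [h3, mul_zero] at hnat
      have h4 := Nat.mul_pos h1 h2
      omega
    · exact h3
  -- the sum is diagonalisable
  have huv : u * v = v * u := hAB u hu v hv
  have hdiag : Diag (u + v) ((Su ×ˢ Sv).image fun p => p.1 + p.2) := by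
    refine LinearMap.ext fun w => ?_
    have hw : w = ∑ s ∈ Su, ∑ t ∈ Sv, pr u Su s (pr v Sv t w) := by
      have h1 : (∑ s ∈ Su, pr u Su s) ((∑ t ∈ Sv, pr v Sv t) w) = w := by
        rw [pr_sum hu', pr_sum hv']
        rfl
      rw [LinearMap.sum_apply] at h1
      refine h1.symm.trans (Finset.sum_congr rfl fun s _ => ?_)
      rw [LinearMap.sum_apply, map_sum]
    rw [hw, map_sum, LinearMap.zero_apply]
    refine Finset.sum_eq_zero fun s hs => ?_
    rw [map_sum]
    refine Finset.sum_eq_zero fun t ht => ?_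
    have h1 : (u + v) (pr u Su s (pr v Sv t w)) =
        (((s + t : ℝ) : ℂ)) • (pr u Su s (pr v Sv t w)) := by
      have h2 : (u + v) * (pr u Su s * pr v Sv t) =
          ((s + t : ℝ) : ℂ) • (pr u Su s * pr v Sv t) := by
        have h3 : pr u Su s * v = v * pr u Su s := pr_comm huv s
        rw [add_mul, ← mul_assoc, mul_pr hu', ← mul_assoc v, ← h3, mul_assoc (pr u Su s) v,
          mul_pr hv', smul_mul_assoc, mul_smul_comm, ← add_smul, Complex.ofReal_add]
      have h4 := congrArg (fun f : End ℂ V => f w) h2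
      exact h4
    have h2 : ∀ q : ℂ[X], aeval (u + v) q (pr u Su s (pr v Sv t w)) =
        q.eval ((s + t : ℝ) : ℂ) • (pr u Su s (pr v Sv t w)) := fun q => by
      by_cases h0 : pr u Su s (pr v Sv t w) = 0
      · rw [h0, map_zero, smul_zero]
      · exact Module.End.aeval_apply_of_hasEigenvector
          (Module.End.hasEigenvector_iff.2 ⟨Module.End.mem_eigenspace_iff.2 h1, h0⟩)
    rw [h2, eval_prod, Finset.prod_eq_zero (i := s + t), zero_smul]
    · exact Finset.mem_image.2 ⟨(s, t), Finset.mem_product.2 ⟨hs, ht⟩, rfl⟩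
    · rw [eval_sub, eval_X, eval_C, sub_self]
  set S := (Su ×ˢ Sv).image fun p => p.1 + p.2 with hS
  -- the eigenvectors
  have hle : ∀ w : V, ∀ c : ℝ, w ≠ 0 → (u + v) w = (c : ℂ) • w → c ≤ a + b := by
    intro w c hw0 hw
    have hw' : w = ∑ s ∈ Su, pr u Su s w := by
      rw [← LinearMap.sum_apply, pr_sum hu']
      rfl
    obtain ⟨s, hs, hs0⟩ : ∃ s ∈ Su, pr u Su s w ≠ 0 := by
      by_contra hcon
      push Not at hcon
      exact hw0 (hw'.trans (Finset.sum_eq_zero hcon))
    have h4 : v (pr u Su s w) = ((c - s : ℝ) : ℂ) • pr u Su s w := by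
      have h5 : (u + v) (pr u Su s w) = (c : ℂ) • pr u Su s w := by
        have h6 : pr u Su s * (u + v) = (u + v) * pr u Su s :=
          pr_comm (by rw [mul_add, add_mul, huv]) s
        rw [← Module.End.mul_apply, ← h6, Module.End.mul_apply, hw, map_smul]
      rw [LinearMap.add_apply, ← Module.End.mul_apply u, mul_pr hu', LinearMap.smul_apply] at h5
      rw [Complex.ofReal_sub, sub_smul]
      exact (eq_sub_of_add_eq' h5)
    have h5 := hbmax _ ((pr_ne_iff hv').2 ⟨_, hs0, h4⟩)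
    have h6 := hamax s (fun h7 => hs0 (by rw [h7, LinearMap.zero_apply]))
    linarith
  have hPQe : (u + v) * (P * Q) = ((a + b : ℝ) : ℂ) • (P * Q) := by
    rw [add_mul, ← mul_assoc, mul_pr hu', hPQ, ← mul_assoc v, mul_pr hv', smul_mul_assoc,
      smul_mul_assoc, ← hQ, ← hP, ← hPQ, ← add_smul, Complex.ofReal_add]
  have hran : LinearMap.range (pr (u + v) S (a + b)) = LinearMap.range (P * Q) := by
    refine le_antisymm ?_ ?_
    · rintro _ ⟨w', rfl⟩
      set w := pr (u + v) S (a + b) w' with hw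
      have hxw : (u + v) w = ((a + b : ℝ) : ℂ) • w := by
        rw [hw, ← Module.End.mul_apply, mul_pr hdiag]
        rfl
      have hPw : P w = w := by
        have h1 : ∑ s ∈ Su, pr u Su s w = w := by
          rw [← LinearMap.sum_apply, pr_sum hu']
          rfl
        have h2 : ∀ s ∈ Su, s ≠ a → pr u Su s w = 0 := by
          intro s _ hs
          by_contra h3
          have h4 : v (pr u Su s w) = ((a + b - s : ℝ) : ℂ) • pr u Su s w := by
            have h5 : (u + v) (pr u Su s w) = ((a + b : ℝ) : ℂ) • pr u Su s w := by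
              have h6 : pr u Su s * (u + v) = (u + v) * pr u Su s :=
                pr_comm (by rw [mul_add, add_mul, huv]) s
              rw [← Module.End.mul_apply, ← h6, Module.End.mul_apply, hxw, map_smul]
            rw [LinearMap.add_apply, ← Module.End.mul_apply u, mul_pr hu',
              LinearMap.smul_apply] at h5
            rw [Complex.ofReal_sub, sub_smul]
            exact (eq_sub_of_add_eq' h5)
          have h7 := hbmax _ ((pr_ne_iff hv').2 ⟨_, h3, h4⟩)
          have h8 := hamax s (fun h9 => h3 (by rw [h9, LinearMap.zero_apply]))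
          exact hs (by linarith)
        by_cases haS : a ∈ Su
        · rw [Finset.sum_eq_single a h2 (fun h3 => absurd haS h3)] at h1
          exact h1
        · exact absurd (pr_of_not_mem haS) ha
      have hQw : Q w = w := by
        refine pr_apply hv' ?_
        have h2 : u w = (a : ℂ) • w := by
          rw [← hPw, ← Module.End.mul_apply, hP, mul_pr hu', ← hP, LinearMap.smul_apply]
        have h3 := hxw
        rw [LinearMap.add_apply, h2, Complex.ofReal_add, add_smul] at h3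
        exact add_left_cancel h3
      exact ⟨w, by rw [Module.End.mul_apply, hQw, hPw]⟩
    · rintro _ ⟨w, rfl⟩
      refine ⟨(P * Q) w, pr_apply hdiag ?_⟩
      exact congrArg (fun f : End ℂ V => f w) hPQe
  have hrkeq : rk (pr (u + v) S (a + b)) = rk (P * Q) := by
    unfold rk
    rw [hran]
  refine ⟨rk (P * Q), ⟨S, hdiag, ?_, ?_, hrkeq⟩, by rw [hnat, hra, hrb]⟩
  · intro h0
    rw [rk_eq_zero.2 h0] at hrkeq
    omega
  · intro s hs
    obtain ⟨w, hw0, hw⟩ := (pr_ne_iff hdiag).1 hs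
    exact hle w s hw0 hw

end

variable {ι : Type} [Fintype ι] [DecidableEq ι] {F : Matrix ι ι ℚ} {h : Submodule ℚ (Matrix ι ι ℚ)}
  {e : Matrix ι ι ℂ}

/-- A component. -/
theorem exists_add [Nonempty ι] (D : LieData F h) (he : IsCochar h e)
    {I : Submodule ℂ (Matrix ι ι ℂ)} (hI : I ∈ orb h e) {x : Matrix ι ι ℂ} (hx : x ∈ cx h) :
    ∃ u ∈ I, ∃ v ∈ others h e I, u + v = x := by
  rw [← sup_others D he hI] at hx
  exact Submodule.mem_sup.1 hx

theorem stable_two [Nonempty ι] (D : LieData F h) (he : IsCochar h e)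
    {I : Submodule ℂ (Matrix ι ι ℂ)} (hI : I ∈ orb h e) :
    (∀ a ∈ (alg I).map (Φ (ι := ι)).toAlgHom, ∀ b ∈ (alg (others h e I)).map (Φ (ι := ι)).toAlgHom,
      a * b = b * a) ∧
    ∀ W : Submodule ℂ (ι → ℂ), (∀ a ∈ (alg I).map (Φ (ι := ι)).toAlgHom, ∀ w ∈ W, a w ∈ W) →
      (∀ b ∈ (alg (others h e I)).map (Φ (ι := ι)).toAlgHom, ∀ w ∈ W, b w ∈ W) →
      W = ⊥ ∨ W = ⊤ := by
  refine ⟨?_, ?_⟩
  · rintro _ ⟨a, ha, rfl⟩ _ ⟨b, hb, rfl⟩
    show Φ a * Φ b = Φ b * Φ a
    rw [← map_mul, ← map_mul, alg_comm (others_comm D he hI) a ha b hb]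
  · intro W hWA hWB
    refine (cxLie D).irr W fun y hy w hw => ?_
    rw [← sup_others D he hI] at hy
    obtain ⟨a, ha, b, hb, rfl⟩ := Submodule.mem_sup.1 hy
    rw [Matrix.add_mulVec]
    refine W.add_mem ?_ ?_
    · rw [← Φ_apply]
      exact hWA _ ⟨a, Algebra.subset_adjoin ha, rfl⟩ w hw
    · rw [← Φ_apply]
      exact hWB _ ⟨b, Algebra.subset_adjoin hb, rfl⟩ w hw

/-- **The multiplicity of the top eigenvalue is a product.** -/
theorem exists_prod [Nonempty ι] (D : LieData F h) (he : IsCochar h e) {x : Matrix ι ι ℂ}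
    (hx : x ∈ cx h) {S : Finset ℝ} (hd : Diag (Φ x) S) (hS : ∀ s ∈ S, s ≤ 1)
    (hf : pr (Φ x) S 1 ≠ 0) :
    ∃ m k : ℕ, k = (orb h e).ncard ∧ Odd k ∧ Fintype.card ι = m ^ k ∧
      ∃ φ : Fin k → ℕ, (∀ i, φ i = m ∨ 2 * φ i ≤ m) ∧ rk (pr (Φ x) S 1) = ∏ i, φ i := by
  classical
  obtain ⟨m, hm, hodd, hiso⟩ := exists_pow_alg D he
  refine ⟨m, _, rfl, hodd, hm, ?_⟩
  have hm0 : 0 < m := by
    rcases Nat.eq_zero_or_pos m with h0 | h0
    · obtain ⟨k, hk⟩ := hodd
      rw [h0, zero_pow (by omega)] at hm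
      exact absurd hm Fintype.card_pos.ne'
    · exact h0
  have hfinite : Finite (orb h e) := orb_finite D he
  have : Fintype (orb h e) := Fintype.ofFinite _
  have hcard : Fintype.card (orb h e) = (orb h e).ncard := by
    rw [← Nat.card_eq_fintype_card, Nat.card_coe_set_eq]
  -- the components
  choose u hu v hv huv using fun I : orb h e => exists_add D he I.2 hx
  have hIcx : ∀ I : orb h e, I.1 ≤ cx h := fun I => by
    rw [← orb_sup D he]
    exact le_sSup I.2
  have hJcx : ∀ I : orb h e, others h e I.1 ≤ cx h := fun I => by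
    rw [← sup_others D he I.2]
    exact le_sup_right
  have hmemJ : ∀ I J : orb h e, J ≠ I → u J ∈ others h e I.1 := fun I J hJI =>
    (le_sSup (show J.1 ∈ orb h e \ {I.1} from ⟨J.2, fun h1 => hJI (Subtype.ext h1)⟩) :
      J.1 ≤ others h e I.1) (hu J)
  have hsum : ∑ I, u I = x := by
    rw [← sub_eq_zero]
    refine scalar_comm D ((cx h).sub_mem ((cx h).sum_mem fun I _ => hIcx I (hu I)) hx) ?_
    let T : Submodule ℂ (Matrix ι ι ℂ) :=
      { carrier := {y | (∑ I, u I - x) * y = y * (∑ I, u I - x)}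
        add_mem' := fun {a b} ha hb => by
          show (∑ I, u I - x) * (a + b) = (a + b) * (∑ I, u I - x)
          rw [mul_add, add_mul, show (∑ I, u I - x) * a = a * (∑ I, u I - x) from ha,
            show (∑ I, u I - x) * b = b * (∑ I, u I - x) from hb]
        zero_mem' := by
          show (∑ I, u I - x) * 0 = 0 * (∑ I, u I - x)
          rw [mul_zero, zero_mul]
        smul_mem' := fun c a ha => by
          show (∑ I, u I - x) * (c • a) = (c • a) * (∑ I, u I - x)
          rw [mul_smul_comm, smul_mul_assoc,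
            show (∑ I, u I - x) * a = a * (∑ I, u I - x) from ha] }
    have h1 : sSup (orb h e) ≤ T := by
      refine sSup_le fun I hI y hy => ?_
      have h2 : ∑ J, u J - x ∈ others h e I := by
        have h3 : ∑ J, u J - x = ∑ J ∈ Finset.univ.erase ⟨I, hI⟩, u J - v ⟨I, hI⟩ := by
          rw [← Finset.add_sum_erase Finset.univ u (Finset.mem_univ (⟨I, hI⟩ : orb h e)),
            ← huv ⟨I, hI⟩]
          abel
        rw [h3]
        exact Submodule.sub_mem _ (Submodule.sum_mem _ fun J hJ =>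
          hmemJ ⟨I, hI⟩ J (Finset.ne_of_mem_erase hJ)) (hv ⟨I, hI⟩)
      exact (others_comm D he hI y hy _ h2).symm
    rw [orb_sup D he] at h1
    exact fun y hy => h1 hy
  -- the components are diagonalisable
  have hdu : ∀ I, ∃ S' : Finset ℝ, Diag (Φ (u I)) S' := by
    intro I
    obtain ⟨hAB, hirr⟩ := stable_two D he I.2
    refine exists_diag (A := (alg (others h e I.1)).map (Φ (ι := ι)).toAlgHom)
      (B := (alg I.1).map (Φ (ι := ι)).toAlgHom) (fun a ha b hb => (hAB b hb a ha).symm)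
      (fun W h1 h2 => hirr W h2 h1) (u := Φ (v I)) (v := Φ (u I))
      ⟨v I, Algebra.subset_adjoin (hv I), rfl⟩ ⟨u I, Algebra.subset_adjoin (hu I), rfl⟩ (S := S) ?_
      (trace_Φ D (hIcx I (hu I)))
    rw [← map_add, add_comm, huv I]
    exact hd
  choose S' hS' using hdu
  choose a r htop using fun I => exists_isTop (hS' I)
  have hAm : ∀ I : orb h e, ∀ z : End ℂ (ι → ℂ), z ∈ (alg I.1).map (Φ (ι := ι)).toAlgHom →
      z * z = z → ∃ q : ℕ, rk z = m ^ ((orb h e).ncard - 1) * q := by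
    intro I z hz hzz
    obtain ⟨φ⟩ := hiso I.1 I.2
    obtain ⟨q, hq⟩ := rk_idem_dvd
      (((alg I.1).equivMapOfInjective (Φ (ι := ι)).toAlgHom (Φ (ι := ι)).injective).symm.trans φ)
      hz hzz
    rw [finrank_fintype_fun_eq_card, hm] at hq
    obtain ⟨k, hk⟩ := hodd
    have h1 : (orb h e).ncard = (orb h e).ncard - 1 + 1 := by omega
    rw [h1, pow_succ] at hq
    have h2 : m * rk z = m * (m ^ ((orb h e).ncard - 1) * q) := by
      rw [hq]
      ring
    exact ⟨q, Nat.eq_of_mul_eq_mul_left hm0 h2⟩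
  have hpow : m ^ (orb h e).ncard = m ^ ((orb h e).ncard - 1) * m := by
    obtain ⟨k, hk⟩ := hodd
    rw [← pow_succ]
    congr 1
    omega
  have hr : ∀ I, ∃ q : ℕ, r I = m ^ ((orb h e).ncard - 1) * q ∧ (q = m ∨ 2 * q ≤ m) := by
    intro I
    obtain ⟨T, hT, hTa, hTmax, hTr⟩ := htop I
    have huA : Φ (u I) ∈ (alg I.1).map (Φ (ι := ι)).toAlgHom :=
      ⟨u I, Algebra.subset_adjoin (hu I), rfl⟩
    have hPA : pr (Φ (u I)) T (a I) ∈ (alg I.1).map (Φ (ι := ι)).toAlgHom := by
      rw [pr]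
      split_ifs
      · exact aeval_mem' huA _
      · exact Subalgebra.zero_mem _
    obtain ⟨q, hq⟩ := hAm I _ hPA (pr_idem hT _)
    refine ⟨q, by rw [← hTr, hq], ?_⟩
    have hpos : 0 < m ^ ((orb h e).ncard - 1) := pow_pos hm0 _
    by_cases h0 : u I = 0
    · left
      have h1 : IsTop (Φ (u I)) 0 (finrank ℂ (ι → ℂ)) := by
        rw [h0, map_zero]
        exact isTop_zero
      have h2 := (htop I).unique h1
      rw [← hTr, hq, finrank_fintype_fun_eq_card, hm, hpow] at h2
      exact Nat.eq_of_mul_eq_mul_left hpos h2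
    · right
      obtain ⟨a', ha', hmax', hle'⟩ := exists_max (form_nondeg D.nondeg) hT
        (fun h1 => h0 ((Φ (ι := ι)).injective (h1.trans (map_zero _).symm)))
        (skew_Φ D (hIcx I (hu I)))
      have h1 : r I = rk (pr (Φ (u I)) T a') := (htop I).unique ⟨T, hT, ha', hmax', rfl⟩
      rw [← h1, ← hTr, hq, finrank_fintype_fun_eq_card, hm, hpow] at hle'
      have h2 : m ^ ((orb h e).ncard - 1) * (2 * q) ≤ m ^ ((orb h e).ncard - 1) * m := by
        calc m ^ ((orb h e).ncard - 1) * (2 * q) = 2 * (m ^ ((orb h e).ncard - 1) * q) := by ring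
          _ ≤ _ := hle'
      exact Nat.le_of_mul_le_mul_left h2 hpos
  choose q hrq hq using hr
  -- the partial sums
  have key : ∀ T : Finset (orb h e), ∃ b ρ, IsTop (Φ (∑ I ∈ T, u I)) b ρ ∧
      finrank ℂ (ι → ℂ) ^ T.card * ρ = finrank ℂ (ι → ℂ) * ∏ I ∈ T, r I := by
    intro T
    induction T using Finset.induction_on with
    | empty =>
      refine ⟨0, finrank ℂ (ι → ℂ), ?_, by simp⟩
      rw [Finset.sum_empty, map_zero]
      exact isTop_zero
    | insert I T hI ih =>
      obtain ⟨b, ρ, h1, h2⟩ := ih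
      obtain ⟨hAB, hirr⟩ := stable_two D he I.2
      have hvT : Φ (∑ J ∈ T, u J) ∈ (alg (others h e I.1)).map (Φ (ι := ι)).toAlgHom := by
        refine ⟨∑ J ∈ T, u J, Algebra.subset_adjoin ?_, rfl⟩
        exact Submodule.sum_mem _ fun J hJ => hmemJ I J fun h3 => hI (h3 ▸ hJ)
      obtain ⟨ρ', h3, h4⟩ := IsTop.add hAB hirr (u := Φ (u I)) (v := Φ (∑ J ∈ T, u J))
        ⟨u I, Algebra.subset_adjoin (hu I), rfl⟩ hvT (htop I) h1
      refine ⟨a I + b, ρ', ?_, ?_⟩
      · rw [Finset.sum_insert hI, map_add]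
        exact h3
      · rw [Finset.card_insert_of_notMem hI, Finset.prod_insert hI, pow_succ, mul_assoc, h4]
        calc finrank ℂ (ι → ℂ) ^ T.card * (r I * ρ) =
            r I * (finrank ℂ (ι → ℂ) ^ T.card * ρ) := by ring
          _ = finrank ℂ (ι → ℂ) * (r I * ∏ J ∈ T, r J) := by rw [h2]; ring
  obtain ⟨b, ρ, h1, h2⟩ := key Finset.univ
  rw [hsum] at h1
  have h3 : rk (pr (Φ x) S 1) = ρ := by
    refine IsTop.unique (a := 1) ⟨S, hd, hf, fun s hs => hS s ?_, rfl⟩ h1
    by_contra h4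
    exact hs (pr_of_not_mem h4)
  simp only [hrq] at h2
  rw [Finset.prod_mul_distrib, Finset.prod_const, Finset.card_univ, hcard,
    finrank_fintype_fun_eq_card, hm] at h2
  have h4 : ρ = ∏ I, q I := by
    set k := (orb h e).ncard with hk
    have h5 : 0 < (m ^ k) ^ k := pow_pos (pow_pos hm0 _) _
    refine Nat.eq_of_mul_eq_mul_left h5 ?_
    rw [h2, ← mul_assoc]
    congr 1
    rw [← pow_mul, ← pow_mul, ← pow_add]
    congr 1
    obtain ⟨j, hj⟩ := hodd
    rw [hj]
    simp only [Nat.add_sub_cancel]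
    ring
  let ε : Fin (orb h e).ncard ≃ orb h e := (Fintype.equivFinOfCardEq hcard).symm
  refine ⟨fun i => q (ε i), fun i => hq _, ?_⟩
  rw [h3, h4]
  exact (Equiv.prod_comp ε q).symm

/-- `cx h` is simple if the multiplicity of the top eigenvalue is not such a product. -/
theorem idl_of_prod [Nonempty ι] (D : LieData F h) (he : IsCochar h e) {x : Matrix ι ι ℂ}
    (hx : x ∈ cx h) {S : Finset ℝ} (hd : Diag (Φ x) S) (hS : ∀ s ∈ S, -1 ≤ s ∧ s ≤ 1) {f : ℕ}
    (hf : (x + 1).rank + f = Fintype.card ι)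
    (hprod : ∀ m k : ℕ, Odd k → 3 ≤ k → Fintype.card ι = m ^ k →
      ∀ φ : Fin k → ℕ, (∀ i, φ i = m ∨ 2 * φ i ≤ m) → f ≠ ∏ i, φ i) :
    idl (cx h) e = cx h := by
  rcases Nat.eq_zero_or_pos f with h0 | hpos
  · obtain ⟨m, hm, hodd, -⟩ := exists_pow_alg D he
    refine idl_of_ncard D he ?_
    obtain ⟨j, hj⟩ := hodd
    by_contra h1
    refine hprod m _ ⟨j, hj⟩ (by omega) hm (fun _ => 0) (fun _ => Or.inr (by omega)) ?_
    rw [h0, Finset.prod_const, Finset.card_univ, Fintype.card_fin, zero_pow (by omega)]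
  have hneg := rk_pr_neg (form_nondeg D.nondeg) hd (skew_Φ D hx) 1
  rw [rk_pr_of_rank hd hf] at hneg
  obtain ⟨m, k, hk, hodd, hm, φ, hφ, hφf⟩ := exists_prod D he hx hd (fun s hs => (hS s hs).2)
    (fun h0 => by
      rw [rk_eq_zero.2 h0] at hneg
      omega)
  refine idl_of_ncard D he ?_
  rw [← hk]
  obtain ⟨j, hj⟩ := hodd
  by_contra h1
  exact hprod m k ⟨j, hj⟩ (by omega) hm φ hφ (by rw [hneg, hφf])

end Pool.Agent.NearOrd
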