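import Pool.Agent.NearOrd.Spec
import Pool.Agent.SmallRank.ZeroPart

/-!
# Elements of small rank from a diagonalisable element

`x` is an element of `g` which commutes with `e`, diagonalisable with real eigenvalues between `-1`
and `1`; `mid x S` is the projection to the sum of the eigenspaces for the eigenvalues different from
`1` and `-1`. If it is neither `0` nor `1` then `g` contains a nonzero element of degree one or minus
one for `e` of rank at most the rank of `mid x S`.
-/

set_option autoImplicit false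

namespace Pool.Agent.NearOrd

open Module Polynomial SmallRank

variable {V : Type*} [AddCommGroup V] [Module ℂ V]

/-- The projection to the sum of the eigenspaces for the eigenvalues different from `1`, `-1`. -/
noncomputable def mid (x : End ℂ V) (S : Finset ℝ) : End ℂ V := 1 - pr x S 1 - pr x S (-1)

variable {x : End ℂ V} {S : Finset ℝ}

theorem one_ne_neg : (1 : ℝ) ≠ -1 := by norm_num

theorem mid_idem (h : Diag x S) : mid x S * mid x S = mid x S := by
  have h1 := pr_idem h 1
  have h2 := pr_idem h (-1)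
  have h3 := pr_pr h one_ne_neg
  have h4 := pr_pr h one_ne_neg.symm
  rw [mid, mul_sub, mul_sub, mul_one, sub_mul, sub_mul, sub_mul, sub_mul, one_mul, one_mul, h1, h2,
    h3, h4]
  abel

theorem pr_mid_one (h : Diag x S) : pr x S 1 * mid x S = 0 := by
  rw [mid, mul_sub, mul_sub, mul_one, pr_idem h, pr_pr h one_ne_neg, sub_self, sub_zero]

theorem pr_mid_neg (h : Diag x S) : pr x S (-1) * mid x S = 0 := by
  rw [mid, mul_sub, mul_sub, mul_one, pr_idem h, pr_pr h one_ne_neg.symm, sub_zero, sub_self]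

theorem mid_pr_one (h : Diag x S) : mid x S * pr x S 1 = 0 := by
  rw [mid, sub_mul, sub_mul, one_mul, pr_idem h, pr_pr h one_ne_neg.symm, sub_self, sub_zero]

theorem mid_pr_neg (h : Diag x S) : mid x S * pr x S (-1) = 0 := by
  rw [mid, sub_mul, sub_mul, one_mul, pr_idem h, pr_pr h one_ne_neg, sub_zero, sub_self]

theorem mid_pr (h : Diag x S) {t : ℝ} (h1 : t ≠ 1) (h2 : t ≠ -1) :
    mid x S * pr x S t = pr x S t := by
  rw [mid, sub_mul, sub_mul, one_mul, pr_pr h h1.symm, pr_pr h h2.symm, sub_zero, sub_zero]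

theorem mid_comm {y : End ℂ V} (h : x * y = y * x) : mid x S * y = y * mid x S := by
  rw [mid, sub_mul, sub_mul, one_mul, mul_sub, mul_sub, mul_one, pr_comm h, pr_comm h]

theorem eq_zero_of_pr (h : Diag x S) {z : End ℂ V}
    (hz : ∀ s ∈ S, ∀ t ∈ S, pr x S s * z * pr x S t = 0) : z = 0 := by
  have h1 : z = (∑ s ∈ S, pr x S s) * z * (∑ t ∈ S, pr x S t) := by
    rw [pr_sum h, one_mul, mul_one]
  rw [h1, Finset.sum_mul, Finset.sum_mul]
  refine Finset.sum_eq_zero fun s hs => ?_
  rw [Finset.mul_sum]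
  exact Finset.sum_eq_zero fun t ht => hz s hs t ht

/-- An eigenvector of `ad x` whose eigenvalue is zero or at least two. -/
theorem stable_of_deg (h : Diag x S) (hS : ∀ s ∈ S, -1 ≤ s ∧ s ≤ 1) {y : End ℂ V} {r : ℝ}
    (hy : x * y - y * x = (r : ℂ) • y) (hr : r = 0 ∨ 2 ≤ |r|) :
    (1 - mid x S) * y * mid x S = 0 := by
  rcases hr with rfl | hr
  · have h1 : x * y = y * x := by
      rw [← sub_eq_zero, hy, Complex.ofReal_zero, zero_smul]
    rw [mul_assoc, ← mid_comm h1, ← mul_assoc, sub_mul, one_mul, mid_idem h, sub_self, zero_mul]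
  · have h1 : y * mid x S = 0 := by
      refine eq_zero_of_pr h fun s hs t ht => ?_
      by_cases h1 : t = 1
      · rw [h1, mul_assoc, mul_assoc, mid_pr_one h, mul_zero, mul_zero]
      by_cases h2 : t = -1
      · rw [h2, mul_assoc, mul_assoc, mid_pr_neg h, mul_zero, mul_zero]
      rw [mul_assoc, mul_assoc, mid_pr h h1 h2, ← mul_assoc]
      refine pr_mul_pr h hy fun h3 => ?_
      have h4 : s - t = r := by exact_mod_cast h3
      have h5 := hS s hs
      have h6 := hS t ht
      have h7 : t < 1 := lt_of_le_of_ne h6.2 h1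
      have h8 : -1 < t := lt_of_le_of_ne h6.1 (Ne.symm h2)
      have h9 : |r| < 2 := by
        rw [← h4, abs_lt]
        constructor <;> linarith
      linarith
    rw [mul_assoc, h1, mul_zero]

variable [FiniteDimensional ℂ V] {e : End ℂ V}

theorem rk_add_le (a b : End ℂ V) : rk (a + b) ≤ rk a + rk b := by
  have h1 : LinearMap.range (a + b) ≤ LinearMap.range a ⊔ LinearMap.range b := by
    rintro _ ⟨w, rfl⟩
    exact Submodule.add_mem_sup ⟨w, rfl⟩ ⟨w, rfl⟩
  exact (Submodule.finrank_mono h1).trans (Submodule.finrank_add_le_finrank_add_finrank _ _)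

theorem rk_split (h : Diag x S) (hee : e * e = e) (hxe : x * e = e * x) :
    rk (mid x S * e) + rk ((1 - e) * mid x S) = rk (mid x S) := by
  have h1 : mid x S * e = e * mid x S := mid_comm hxe
  have h2 := mid_idem h
  have h3 : (1 - e) * mid x S = mid x S * (1 - e) := by rw [sub_mul, mul_sub, one_mul, mul_one, h1]
  have h4 : (1 - e) * (1 - e) = 1 - e := by
    rw [mul_sub, mul_one, sub_mul, one_mul, hee, sub_self, sub_zero]
  have h5 : mid x S * e + (1 - e) * mid x S = mid x S := by
    rw [h3, mul_sub, mul_one, add_sub_cancel]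
  rw [← rk_add_idem (p := mid x S * e) (q := (1 - e) * mid x S), h5]
  · rw [mul_assoc, ← mul_assoc e, ← h1, mul_assoc, hee, ← mul_assoc, h2]
  · rw [mul_assoc, ← mul_assoc (mid x S), ← h3, mul_assoc, h2, ← mul_assoc, h4]
  · rw [mul_assoc, ← mul_assoc e, mul_sub, mul_one, hee, sub_self, zero_mul, mul_zero]
  · rw [mul_assoc, ← mul_assoc (mid x S), h2, h1, ← mul_assoc, sub_mul, one_mul, hee, sub_self,
      zero_mul]

/-- The rank of an eigenvector of `ad x` of degree one for `e`. -/
theorem rk_le_mid (h : Diag x S) (hS : ∀ s ∈ S, -1 ≤ s ∧ s ≤ 1) (hee : e * e = e)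
    (hxe : x * e = e * x) {y : End ℂ V} {r : ℝ} (hy : x * y - y * x = (r : ℂ) • y) (hr0 : r ≠ 0)
    (hr : |r| < 2) (h1 : e * y = y) (h2 : y * e = 0) : rk y ≤ rk (mid x S) := by
  have key : ∀ A B : End ℂ V, A + B + mid x S = 1 → y * A = 0 → A * (y * B) = 0 →
      B * (y * B) = 0 → rk y ≤ rk (mid x S) := by
    intro A B hAB hA hAyB hByB
    have h3 : y * B = mid x S * e * (y * B) := by
      have h4 : (A + B + mid x S) * (y * B) = y * B := by rw [hAB, one_mul]
      rw [add_mul, add_mul, hAyB, hByB, zero_add, zero_add] at h4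
      rw [mul_assoc, ← mul_assoc e, h1, h4]
    have h4 : y * mid x S = y * ((1 - e) * mid x S) := by
      rw [← mul_assoc, mul_sub, mul_one, h2, sub_zero]
    have h5 : y = mid x S * e * (y * B) + y * ((1 - e) * mid x S) := by
      rw [← h3, ← h4]
      have h6 : y * (A + B + mid x S) = y := by rw [hAB, mul_one]
      rw [mul_add, mul_add, hA, zero_add] at h6
      exact h6.symm
    rw [h5]
    refine (rk_add_le _ _).trans ?_
    rw [← rk_split h hee hxe]
    exact add_le_add (rk_mul_left _ _) (rk_mul_right _ _)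
  have hsum : pr x S 1 + pr x S (-1) + mid x S = 1 := by rw [mid]; abel
  rw [abs_lt] at hr
  rcases lt_or_gt_of_ne hr0 with hneg | hpos
  · refine key (pr x S (-1)) (pr x S 1) (by rw [add_comm (pr x S (-1)), hsum]) ?_ ?_ ?_
    · refine eq_zero_of_pr h fun s hs t ht => ?_
      by_cases h3 : t = -1
      · rw [h3, mul_assoc, mul_assoc, pr_idem h, ← mul_assoc]
        refine pr_mul_pr h hy fun h4 => ?_
        have h5 : s - -1 = r := by exact_mod_cast h4
        have h6 := hS s hs
        linarith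
      · rw [mul_assoc, mul_assoc, pr_pr h (Ne.symm h3), mul_zero, mul_zero]
    · rw [← mul_assoc]
      refine pr_mul_pr h hy fun h4 => ?_
      have h5 : (-1 : ℝ) - 1 = r := by exact_mod_cast h4
      linarith
    · rw [← mul_assoc]
      refine pr_mul_pr h hy fun h4 => ?_
      have h5 : (1 : ℝ) - 1 = r := by exact_mod_cast h4
      linarith
  · refine key (pr x S 1) (pr x S (-1)) hsum ?_ ?_ ?_
    · refine eq_zero_of_pr h fun s hs t ht => ?_
      by_cases h3 : t = 1
      · rw [h3, mul_assoc, mul_assoc, pr_idem h, ← mul_assoc]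
        refine pr_mul_pr h hy fun h4 => ?_
        have h5 : s - 1 = r := by exact_mod_cast h4
        have h6 := hS s hs
        linarith
      · rw [mul_assoc, mul_assoc, pr_pr h (Ne.symm h3), mul_zero, mul_zero]
    · rw [← mul_assoc]
      refine pr_mul_pr h hy fun h4 => ?_
      have h5 : (1 : ℝ) - -1 = r := by exact_mod_cast h4
      linarith
    · rw [← mul_assoc]
      refine pr_mul_pr h hy fun h4 => ?_
      have h5 : (-1 : ℝ) - -1 = r := by exact_mod_cast h4
      linarith

/-- A subspace stable under `ad x` is the sum of its intersections with the eigenspaces. -/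
theorem ad_induction (h : Diag x S) {U : Submodule ℂ (End ℂ V)}
    (hU : ∀ y ∈ U, x * y - y * x ∈ U) {Q : Submodule ℂ (End ℂ V)}
    (hQ : ∀ y ∈ U, ∀ r : ℝ, x * y - y * x = (r : ℂ) • y → y ∈ Q) : U ≤ Q := by
  set f : End ℂ (End ℂ V) := LinearMap.mulLeft ℂ x - LinearMap.mulRight ℂ x with hf
  have hfa : ∀ y, f y = x * y - y * x := fun y => rfl
  have hs := semisimple h
  have h1 : Module.End.IsSemisimple (LinearMap.mulLeft ℂ x) := by
    refine Module.End.isSemisimple_of_squarefree_aeval_eq_zero
      (p := ∏ s ∈ S, (X - C (s : ℂ))) (separable_prod_X_sub_C_iff'.2 (inj_coe S)).squarefree ?_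
    have h2 : aeval (LinearMap.mulLeft ℂ x) (∏ s ∈ S, (X - C (s : ℂ))) =
        LinearMap.mulLeft ℂ (aeval x (∏ s ∈ S, (X - C (s : ℂ)))) :=
      (Polynomial.aeval_algHom_apply (Algebra.lmul ℂ (End ℂ V)) x _)
    rw [h2, show aeval x (∏ s ∈ S, (X - C (s : ℂ))) = 0 from h]
    exact LinearMap.mulLeft_zero_eq_zero ℂ _
  have h2 : Module.End.IsSemisimple (LinearMap.mulRight ℂ x) := by
    refine Module.End.isSemisimple_of_squarefree_aeval_eq_zero
      (p := ∏ s ∈ S, (X - C (s : ℂ))) (separable_prod_X_sub_C_iff'.2 (inj_coe S)).squarefree ?_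
    have h3 : ∀ q : ℂ[X], ∀ y, aeval (LinearMap.mulRight ℂ x) q y = y * aeval x q := by
      intro q y
      induction q using Polynomial.induction_on generalizing y with
      | C a => simp [Algebra.algebraMap_eq_smul_one]
      | add p q hp hq => rw [map_add, map_add, LinearMap.add_apply, hp, hq, mul_add]
      | monomial n a ih =>
        rw [pow_succ, ← mul_assoc, map_mul (aeval (LinearMap.mulRight ℂ x)) (C a * X ^ n) X,
          map_mul (aeval x) (C a * X ^ n) X, Module.End.mul_apply, ih, aeval_X, aeval_X,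
          LinearMap.mulRight_apply, mul_assoc y x]
        congr 1
        exact (aeval_comm rfl _).symm
    refine LinearMap.ext fun y => ?_
    rw [h3, show aeval x (∏ s ∈ S, (X - C (s : ℂ))) = 0 from h, mul_zero]
    rfl
  have h3 : f.IsSemisimple := by
    refine Module.End.IsSemisimple.sub_of_commute ?_ h1 h2
    exact LinearMap.ext fun y => (mul_assoc x y x).symm
  have h4 := h3.iSup_eigenspace_eq_top
  have h5 := Submodule.eq_iSup_inf_genEigenspace (p := U) (f := f) 1 (fun y hy => hU y hy) h4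
  rw [h5, iSup_le_iff]
  rintro μ y ⟨hyU, hy⟩
  have hy' : f y = μ • y := Module.End.mem_eigenspace_iff.1 hy
  rw [hfa] at hy'
  by_cases hy0 : y = 0
  · rw [hy0]
    exact Q.zero_mem
  obtain ⟨s, -, t, -, hst⟩ := exists_diff h hy' hy0
  refine hQ y hyU (s - t) ?_
  rw [hy', ← hst, Complex.ofReal_sub]

/-- **Elements of small rank.** -/
theorem exists_small {g : Submodule ℂ (End ℂ V)} (G : Gr g e) (hx : x ∈ g) (hxe : x * e = e * x)
    (h : Diag x S) (hS : ∀ s ∈ S, -1 ≤ s ∧ s ≤ 1) (h0 : mid x S ≠ 0) (h1 : mid x S ≠ 1) :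
    ∃ y ∈ g, y ≠ 0 ∧ LinearMap.trace ℂ V y = 0 ∧ rk y ≤ rk (mid x S) := by
  by_contra hcon
  push Not at hcon
  let Q : Submodule ℂ (End ℂ V) :=
    { carrier := {y | (1 - mid x S) * y * mid x S = 0}
      add_mem' := fun {a b} ha hb => by
        show (1 - mid x S) * (a + b) * mid x S = 0
        rw [mul_add, add_mul, show (1 - mid x S) * a * mid x S = 0 from ha,
          show (1 - mid x S) * b * mid x S = 0 from hb, add_zero]
      zero_mem' := by
        show (1 - mid x S) * 0 * mid x S = 0
        rw [mul_zero, zero_mul]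
      smul_mem' := fun c a ha => by
        show (1 - mid x S) * (c • a) * mid x S = 0
        rw [mul_smul_comm, smul_mul_assoc, show (1 - mid x S) * a * mid x S = 0 from ha,
          smul_zero] }
  have hQ : ∀ y, y ∈ Q ↔ (1 - mid x S) * y * mid x S = 0 := fun y => Iff.rfl
  have hst : ∀ a ∈ Q, a * mid x S = mid x S * (a * mid x S) := by
    intro a ha
    rw [hQ, mul_assoc, sub_mul, one_mul, sub_eq_zero] at ha
    exact ha
  have hmul : ∀ a ∈ Q, ∀ b ∈ Q, a * b ∈ Q := by
    intro a ha b hb
    have h3 := hst a ha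
    have h2 := hst b hb
    rw [hQ, mul_assoc, sub_mul, one_mul, sub_eq_zero]
    calc a * b * mid x S = a * (b * mid x S) := mul_assoc _ _ _
      _ = a * (mid x S * (b * mid x S)) := by rw [← h2]
      _ = a * mid x S * (b * mid x S) := (mul_assoc _ _ _).symm
      _ = mid x S * (a * mid x S) * (b * mid x S) := by rw [← h3]
      _ = mid x S * (a * (mid x S * (b * mid x S))) := by simp only [mul_assoc]
      _ = mid x S * (a * (b * mid x S)) := by rw [← h2]
      _ = mid x S * (a * b * mid x S) := by rw [mul_assoc a]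
  have hpiece : ∀ e' : End ℂ V, e' * e' = e' → x * e' = e' * x → ∀ y ∈ g, e' * y = y →
      y * e' = 0 → LinearMap.trace ℂ V y = 0 → ∀ r : ℝ, x * y - y * x = (r : ℂ) • y → y ∈ Q := by
    intro e' he' hxe' y hyg hy1 hy2 htr r hr
    by_cases hy0 : y = 0
    · rw [hy0]
      exact Q.zero_mem
    rw [hQ]
    refine stable_of_deg h hS hr ?_
    by_contra hr0
    push Not at hr0
    exact absurd (rk_le_mid h hS he' hxe' hr hr0.1 hr0.2 hy1 hy2)
      (not_le.2 (hcon y hyg hy0 htr))
  have hup : up g e ≤ Q := by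
    refine ad_induction h (fun y hy => G.lie_up hx hxe.symm hy) fun y hy r hr => ?_
    have h2 := Gr.trace_up hy (z := 1) (by rw [mul_one, one_mul])
    rw [mul_one] at h2
    exact hpiece e G.idem hxe y hy.1 hy.2.1 hy.2.2 h2 r hr
  have hdn : dn g e ≤ Q := by
    refine ad_induction h (fun y hy => G.lie_dn hx hxe.symm hy) fun y hy r hr => ?_
    have h2 := Gr.trace_dn hy (z := 1) (by rw [mul_one, one_mul])
    rw [mul_one] at h2
    refine hpiece (1 - e) G.idem' ?_ y hy.1 ?_ ?_ h2 r hr
    · rw [mul_sub, sub_mul, mul_one, one_mul, hxe]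
    · rw [sub_mul, one_mul, hy.2.1, sub_zero]
    · rw [mul_sub, mul_one, hy.2.2, sub_self]
  have h1Q : (1 : End ℂ V) ∈ Q := by
    rw [hQ, mul_one, sub_mul, one_mul, mid_idem h, sub_self]
  have hgQ : ∀ z ∈ g, z ∈ Q := by
    intro z hz
    rw [G.decomp z]
    refine Q.add_mem (Q.add_mem (hup (G.up_mem hz)) (hdn (G.dn_mem hz))) ?_
    obtain ⟨κ, hκ⟩ := zero_span G (G.zero_mem hz) (G.zero_comm z)
    have h2 : Submodule.span ℂ {d | ∃ x ∈ up g e, ∃ y ∈ dn g e, d = x * y - y * x} ≤ Q := by
      refine Submodule.span_le.2 ?_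
      rintro _ ⟨u, hu, v, hv, rfl⟩
      exact Q.sub_mem (hmul u (hup hu) v (hdn hv)) (hmul v (hdn hv) u (hup hu))
    have h3 := Q.add_mem (h2 hκ) (Q.smul_mem κ h1Q)
    rwa [sub_add_cancel] at h3
  rcases G.irr (LinearMap.range (mid x S)) (by
    rintro a ha _ ⟨w, rfl⟩
    refine ⟨(a * mid x S) w, ?_⟩
    have h2 := hst a (hgQ a ha)
    have h3 := congrArg (fun f : End ℂ V => f w) h2
    exact h3.symm) with h2 | h2
  · exact h0 (LinearMap.range_eq_bot.1 h2)
  · refine h1 (LinearMap.ext fun w => ?_)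
    have h3 : w ∈ LinearMap.range (mid x S) := by rw [h2]; exact Submodule.mem_top
    obtain ⟨u, rfl⟩ := h3
    rw [← Module.End.mul_apply, mid_idem h]
    rfl

end Pool.Agent.NearOrd
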