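import Mathlib
import Pool.Agent.SmallRank.Defs

/-!
# Spectral projections of a diagonalisable operator with real eigenvalues

`Diag x S`: the operator `x` of a complex vector space is diagonalisable with eigenvalues in the
finite set `S` of real numbers. `pr x S s` is the projection to the eigenspace of `s`.
-/

set_option autoImplicit false

namespace Pool.Agent.NearOrd

open Module Polynomial

variable {V : Type*} [AddCommGroup V] [Module ℂ V]

/-- `x` is diagonalisable with eigenvalues in `S`. -/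
def Diag (x : End ℂ V) (S : Finset ℝ) : Prop :=
  aeval x (∏ s ∈ S, (X - C (s : ℂ))) = 0

open Classical in
/-- The projection to the eigenspace. -/
noncomputable def pr (x : End ℂ V) (S : Finset ℝ) (s : ℝ) : End ℂ V :=
  if s ∈ S then aeval x (Lagrange.basis S (fun t : ℝ => (t : ℂ)) s) else 0

theorem aeval_comm {A : Type*} [Ring A] [Algebra ℂ A] {x y : A} (h : x * y = y * x)
    (q : ℂ[X]) : aeval x q * y = y * aeval x q := by
  have h1 : aeval x q ∈ Subalgebra.centralizer ℂ {y} := by
    have h2 : Algebra.adjoin ℂ {x} ≤ Subalgebra.centralizer ℂ {y} := by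
      refine Algebra.adjoin_le ?_
      rw [Set.singleton_subset_iff, SetLike.mem_coe, Subalgebra.mem_centralizer_iff]
      intro z hz
      rw [Set.mem_singleton_iff.1 hz, h]
    exact h2 (aeval_mem_adjoin_singleton ℂ x)
  exact ((Subalgebra.mem_centralizer_iff ℂ).1 h1 y rfl).symm

variable {x : End ℂ V} {S : Finset ℝ}

theorem pr_of_not_mem {s : ℝ} (hs : s ∉ S) : pr x S s = 0 := by
  rw [pr, if_neg hs]

theorem pr_comm {y : End ℂ V} (h : x * y = y * x) (s : ℝ) : pr x S s * y = y * pr x S s := by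
  rw [pr]
  split_ifs
  · exact aeval_comm h _
  · rw [zero_mul, mul_zero]

theorem inj_coe (S : Finset ℝ) : Set.InjOn (fun t : ℝ => (t : ℂ)) S :=
  Complex.ofReal_injective.injOn

/-- The sum of the projections. -/
theorem pr_sum (h : Diag x S) : ∑ s ∈ S, pr x S s = 1 := by
  rcases S.eq_empty_or_nonempty with h0 | h0
  · subst h0
    rw [Diag, Finset.prod_empty, map_one] at h
    rw [Finset.sum_empty, h]
  · have h1 := Lagrange.sum_basis (inj_coe S) h0
    have h2 : ∑ s ∈ S, pr x S s = ∑ s ∈ S, aeval x (Lagrange.basis S (fun t : ℝ => (t : ℂ)) s) :=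
      Finset.sum_congr rfl fun s hs => by rw [pr, if_pos hs]
    rw [h2, ← map_sum, h1, map_one]

theorem mul_pr (h : Diag x S) (s : ℝ) : x * pr x S s = (s : ℂ) • pr x S s := by
  classical
  by_cases hs : s ∈ S
  · rw [pr, if_pos hs]
    have h1 : (X - C (s : ℂ)) * Lagrange.basis S (fun t : ℝ => (t : ℂ)) s =
        (∏ t ∈ S, (X - C (t : ℂ))) * (∏ t ∈ S.erase s, C (((s : ℂ) - (t : ℂ))⁻¹)) := by
      rw [Lagrange.basis, ← Finset.mul_prod_erase S _ hs, mul_assoc, ← Finset.prod_mul_distrib]
      congr 1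
      refine Finset.prod_congr rfl fun t _ => ?_
      rw [Lagrange.basisDivisor, mul_comm]
    have h2 : aeval x ((X - C (s : ℂ)) * Lagrange.basis S (fun t : ℝ => (t : ℂ)) s) = 0 := by
      rw [h1, map_mul, show aeval x (∏ t ∈ S, (X - C (t : ℂ))) = 0 from h, zero_mul]
    rw [map_mul, map_sub, aeval_X, aeval_C, sub_mul, sub_eq_zero] at h2
    rw [h2, Algebra.algebraMap_eq_smul_one, smul_mul_assoc, one_mul]
  · rw [pr_of_not_mem hs, mul_zero, smul_zero]

theorem pr_mul (h : Diag x S) (s : ℝ) : pr x S s * x = (s : ℂ) • pr x S s := by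
  rw [pr_comm rfl, mul_pr h]

theorem pr_pr (h : Diag x S) {s t : ℝ} (hst : s ≠ t) : pr x S s * pr x S t = 0 := by
  have h1 : pr x S s * (x * pr x S t) = pr x S s * x * pr x S t := (mul_assoc _ _ _).symm
  rw [mul_pr h, pr_mul h, mul_smul_comm, smul_mul_assoc, ← sub_eq_zero, ← sub_smul] at h1
  rcases smul_eq_zero.1 h1 with h2 | h2
  · exact absurd (by exact_mod_cast (sub_eq_zero.1 h2).symm) hst
  · exact h2

theorem pr_idem (h : Diag x S) (s : ℝ) : pr x S s * pr x S s = pr x S s := by
  by_cases hs : s ∈ S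
  · have h1 : pr x S s * ∑ t ∈ S, pr x S t = pr x S s := by rw [pr_sum h, mul_one]
    rw [Finset.mul_sum, Finset.sum_eq_single s] at h1
    · exact h1
    · intro t _ ht
      exact pr_pr h ht.symm
    · intro h2
      exact absurd hs h2
  · rw [pr_of_not_mem hs, zero_mul]

/-- Components of an eigenvector of `ad x`. -/
theorem pr_mul_pr {y : End ℂ V} {δ : ℂ} (h : Diag x S) (hy : x * y - y * x = δ • y) {s t : ℝ}
    (hst : (s : ℂ) - t ≠ δ) : pr x S s * y * pr x S t = 0 := by
  have h1 : pr x S s * (x * y - y * x) * pr x S t = δ • (pr x S s * y * pr x S t) := by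
    rw [hy, mul_smul_comm, smul_mul_assoc]
  have h2 : pr x S s * (x * y - y * x) * pr x S t =
      ((s : ℂ) - t) • (pr x S s * y * pr x S t) := by
    rw [mul_sub, sub_mul, ← mul_assoc, pr_mul h, mul_assoc (pr x S s) (y * x), mul_assoc y,
      mul_pr h, smul_mul_assoc, smul_mul_assoc, mul_smul_comm, mul_smul_comm, ← mul_assoc,
      sub_smul]
  rw [h2, ← sub_eq_zero, ← sub_smul] at h1
  rcases smul_eq_zero.1 h1 with h3 | h3
  · exact absurd (sub_eq_zero.1 h3) hst
  · exact h3

/-- If the operator is not zero then its degree is a difference of eigenvalues. -/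
theorem exists_diff {y : End ℂ V} {δ : ℂ} (h : Diag x S) (hy : x * y - y * x = δ • y)
    (hy0 : y ≠ 0) : ∃ s ∈ S, ∃ t ∈ S, ((s : ℂ) - t) = δ := by
  by_contra hcon
  push Not at hcon
  refine hy0 ?_
  have h1 : y = (∑ s ∈ S, pr x S s) * y * (∑ t ∈ S, pr x S t) := by
    rw [pr_sum h, one_mul, mul_one]
  rw [h1, Finset.sum_mul, Finset.sum_mul]
  refine Finset.sum_eq_zero fun s hs => ?_
  rw [Finset.mul_sum]
  exact Finset.sum_eq_zero fun t ht => pr_mul_pr h hy (hcon s hs t ht)

/-- Eigenvectors. -/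
theorem pr_apply {w : V} {s : ℝ} (h : Diag x S) (hw : x w = (s : ℂ) • w) : pr x S s w = w := by
  have h1 : ∀ t, t ≠ s → pr x S t w = 0 := by
    intro t ht
    have h2 : (pr x S t * x) w = (t : ℂ) • pr x S t w := by
      rw [pr_mul h, LinearMap.smul_apply]
    rw [Module.End.mul_apply, hw, map_smul, ← sub_eq_zero, ← sub_smul] at h2
    rcases smul_eq_zero.1 h2 with h3 | h3
    · exact absurd (by exact_mod_cast (sub_eq_zero.1 h3).symm) ht
    · exact h3
  have h2 : (∑ t ∈ S, pr x S t) w = w := by rw [pr_sum h]; rfl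
  rw [LinearMap.sum_apply] at h2
  by_cases hs : s ∈ S
  · rw [Finset.sum_eq_single s (fun t _ ht => h1 t ht) (fun h3 => absurd hs h3)] at h2
    exact h2
  · rw [Finset.sum_eq_zero fun t ht => h1 t fun h3 => hs (h3 ▸ ht)] at h2
    rw [← h2, map_zero]

/-- The operator is semisimple. -/
theorem semisimple (h : Diag x S) : x.IsSemisimple := by
  refine Module.End.isSemisimple_of_squarefree_aeval_eq_zero (p := ∏ s ∈ S, (X - C (s : ℂ))) ?_ h
  have h1 : (∏ s ∈ S, (X - C (s : ℂ))).Separable :=
    separable_prod_X_sub_C_iff'.2 (inj_coe S)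
  exact h1.squarefree

end Pool.Agent.NearOrd
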